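import Mathlib

/-!
# Kameko's squaring operation on the coinvariants of the primitive homology of `B(ℤ/2)^d`

Definitions: the Steenrod squares on `P_d = 𝔽₂[x_1, …, x_d]`, the primitive part `PH_n` of the graded
dual, the right action of `GL_d(𝔽₂)` on it, Kameko's map `PH_n → PH_{d+2n}` and the map induced on
the coinvariants.
-/

set_option autoImplicit false

namespace Pool.Agent.R793.Kameko

open MvPolynomial

/-- `P_d = 𝔽₂[x_1, …, x_d]` -/
abbrev Pol (d : ℕ) : Type := MvPolynomial (Fin d) (ZMod 2)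

/-- The total Steenrod square, the ring homomorphism `P_d → P_d[T]` with `x_i ↦ x_i + x_i ^ 2 T`. -/
noncomputable def totalSq (d : ℕ) : Pol d →ₐ[ZMod 2] Polynomial (Pol d) :=
  MvPolynomial.aeval fun i : Fin d =>
    Polynomial.C (X i : Pol d) + Polynomial.X * Polynomial.C ((X i : Pol d) ^ 2)

/-- The Steenrod square `Sq^k : P_d → P_d`, the coefficient of `T ^ k` in the total square. -/
noncomputable def Sq (d k : ℕ) (f : Pol d) : Pol d := (totalSq d f).coeff k

/-- The left action of a matrix `w` on `P_d` by `x_j ↦ ∑ i, w_{ij} x_i`. -/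
noncomputable def act (d : ℕ) (w : Matrix (Fin d) (Fin d) (ZMod 2)) : Pol d →ₐ[ZMod 2] Pol d :=
  MvPolynomial.aeval fun j : Fin d => ∑ i : Fin d, C (w i j) * (X i : Pol d)

/-- `H_n`: the degree-`n` part of the graded dual of `P_d`, i.e. the linear functionals on `P_d`
which vanish on the monomials of degree `≠ n`. -/
noncomputable def H (d n : ℕ) : Submodule (ZMod 2) (Module.Dual (ZMod 2) (Pol d)) :=
  (Submodule.span (ZMod 2)
    {f : Pol d | ∃ s : Fin d →₀ ℕ, s.degree ≠ n ∧ f = monomial s 1}).dualAnnihilator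

/-- `PH_n`: the elements `z` of `H_n` annihilated by the dual operations `Sq^k_*`, `k > 0`, where
`(Sq^k_* z)(f) = z (Sq^k f)`. -/
noncomputable def PH (d n : ℕ) : Submodule (ZMod 2) (Module.Dual (ZMod 2) (Pol d)) :=
  H d n ⊓ (Submodule.span (ZMod 2)
    {g : Pol d | ∃ (k : ℕ) (f : Pol d), 0 < k ∧ g = Sq d k f}).dualAnnihilator

/-- The linear map `P_d → P_d` which sends the monomial `x^t` to `x^((t-1)/2)` if all exponents
`t_i` are odd and to `0` otherwise. -/
noncomputable def half (d : ℕ) : Pol d →ₗ[ZMod 2] Pol d :=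
  (basisMonomials (Fin d) (ZMod 2)).constr (ZMod 2) fun t : Fin d →₀ ℕ =>
    if ∀ i, Odd (t i) then monomial (Finsupp.equivFunOnFinite.symm fun i => (t i - 1) / 2) 1 else 0

/-- The span of the elements `z w - z`, `z ∈ PH_n`, `w ∈ GL_d(𝔽₂)`, where `z w = z ∘ w` is the right
action on the dual. The coinvariants `𝔽₂ ⊗_{GL_d} PH_n` are the quotient of `PH_n` by it. -/
noncomputable def CoinvRel (d n : ℕ) : Submodule (ZMod 2) (Module.Dual (ZMod 2) (Pol d)) :=
  Submodule.span (ZMod 2) {y | ∃ z ∈ PH d n, ∃ w : GL (Fin d) (ZMod 2),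
    y = z ∘ₗ (act d w).toLinearMap - z}

/-- Kameko's squaring operation `𝔽₂ ⊗_{GL_d} PH_n → 𝔽₂ ⊗_{GL_d} PH_{d+2n}` is injective. Kameko's map
`PH_n → PH_{d+2n}` is `z ↦ z ∘ half` (it sends the element dual to the monomial `x^s` to the element
dual to `x^(2s+1)`), so this says: if `z ∘ half` vanishes in the coinvariants, then so does `z`. -/
def SquaringInjective (d n : ℕ) : Prop :=
  ∀ z ∈ PH d n, z ∘ₗ half d ∈ CoinvRel d (d + 2 * n) → z ∈ CoinvRel d n

theorem mem_H {d n : ℕ} {z : Module.Dual (ZMod 2) (Pol d)} :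
    z ∈ H d n ↔ ∀ s : Fin d →₀ ℕ, s.degree ≠ n → z (monomial s 1) = 0 := by
  unfold H
  rw [Submodule.mem_dualAnnihilator]
  constructor
  · intro h s hs
    exact h _ (Submodule.subset_span ⟨s, hs, rfl⟩)
  · intro h f hf
    induction hf using Submodule.span_induction with
    | mem x hx =>
      obtain ⟨s, hs, rfl⟩ := hx
      exact h s hs
    | zero => exact map_zero z
    | add x y _ _ hx hy => rw [map_add, hx, hy, add_zero]
    | smul c x _ hx => rw [map_smul, hx, smul_zero]

theorem mem_PH {d n : ℕ} {z : Module.Dual (ZMod 2) (Pol d)} :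
    z ∈ PH d n ↔ z ∈ H d n ∧ ∀ k : ℕ, 0 < k → ∀ f : Pol d, z (Sq d k f) = 0 := by
  unfold PH
  rw [Submodule.mem_inf, Submodule.mem_dualAnnihilator]
  refine and_congr Iff.rfl ?_
  constructor
  · intro h k hk f
    exact h _ (Submodule.subset_span ⟨k, f, hk, rfl⟩)
  · intro h f hf
    induction hf using Submodule.span_induction with
    | mem x hx =>
      obtain ⟨k, f, hk, rfl⟩ := hx
      exact h k hk f
    | zero => exact map_zero z
    | add x y _ _ hx hy => rw [map_add, hx, hy, add_zero]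
    | smul c x _ hx => rw [map_smul, hx, smul_zero]

end Pool.Agent.R793.Kameko
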