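import Pool.Agent.R793.KamekoMain

/-! Elements of the kernel of Kameko's squaring operation. -/

set_option autoImplicit false

namespace Pool.Agent.R793.Kameko

open MvPolynomial

variable {d : ℕ}

/-- changing four exponents -/
def E4 (s : Fin d → ℕ) (a b c e : Fin d) (x y z u : ℕ) : Fin d → ℕ :=
  fun i => if i = a then x else if i = b then y else if i = c then z else if i = e then u else s i

theorem sum4 (f : Fin d → ℕ) {a b c e : Fin d} (hab : a ≠ b) (hac : a ≠ c) (hae : a ≠ e) (hbc : b ≠ c)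
    (hbe : b ≠ e) (hce : c ≠ e) :
    ∑ i, f i = f a + (f b + (f c + (f e + ∑ i ∈ (((Finset.univ.erase a).erase b).erase c).erase e, f i))) := by
  rw [Finset.add_sum_erase _ _ (by simp [hae.symm, hbe.symm, hce.symm]),
    Finset.add_sum_erase _ _ (by simp [hac.symm, hbc.symm]),
    Finset.add_sum_erase _ _ (by simp [hab.symm]),
    Finset.add_sum_erase _ _ (by simp)]

theorem E4_mem (s : Fin d → ℕ) (hs : ∀ i, ∃ m, s i = 2 ^ m - 1) {a b c e : Fin d} (hab : a ≠ b)
    (hac : a ≠ c) (hae : a ≠ e) (hbc : b ≠ c) (hbe : b ≠ e) (hce : c ≠ e) (ha : s a = 1) (hb : s b = 1)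
    (hc : s c = 1) (he : s e = 1) (N : ℕ) (hN : ∑ i, s i = N) (x y z u : ℕ) (hx : ∃ m, x = 2 ^ m - 1)
    (hy : ∃ m, y = 2 ^ m - 1) (hz : ∃ m, z = 2 ^ m - 1) (hu : ∃ m, u = 2 ^ m - 1) (h4 : x + y + z + u = 4) :
    zc (E4 s a b c e x y z u) ∈ PH d N := by
  apply zc_mem
  · intro i
    unfold E4
    split_ifs
    · exact hx
    · exact hy
    · exact hz
    · exact hu
    · exact hs i
  · rw [← hN, sum4 _ hab hac hae hbc hbe hce, sum4 s hab hac hae hbc hbe hce, ha, hb, hc, he]
    have e1 : E4 s a b c e x y z u a = x := by simp [E4]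
    have e2 : E4 s a b c e x y z u b = y := by simp [E4, hab.symm]
    have e3 : E4 s a b c e x y z u c = z := by simp [E4, hac.symm, hbc.symm]
    have e5 : E4 s a b c e x y z u e = u := by simp [E4, hae.symm, hbe.symm, hce.symm]
    have e6 : ∑ i ∈ (((Finset.univ.erase a).erase b).erase c).erase e, E4 s a b c e x y z u i =
        ∑ i ∈ (((Finset.univ.erase a).erase b).erase c).erase e, s i := by
      refine Finset.sum_congr rfl fun i hi => ?_
      simp only [Finset.mem_erase] at hi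
      simp [E4, hi.1, hi.2.1, hi.2.2.1, hi.2.2.2.1]
    rw [e1, e2, e3, e5, e6]
    omega

theorem mkQ_gact (n : ℕ) (w : GL (Fin d) (ZMod 2)) (z : PH d n) :
    (coinvRel d n).mkQ (gact d n w z) = (coinvRel d n).mkQ z := by
  have h : (coinvRel d n).mkQ (gact d n w z - z) = 0 := by
    rw [Submodule.mkQ_apply, Submodule.Quotient.mk_eq_zero]
    exact Submodule.subset_span ⟨z, w, rfl⟩
  have h2 : (coinvRel d n).mkQ (gact d n w z - z) =
      (coinvRel d n).mkQ (gact d n w z) - (coinvRel d n).mkQ z := LinearMap.map_sub _ _ _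
  rw [h2] at h
  exact sub_eq_zero.1 h

theorem chain (s : Fin d → ℕ) (hs : ∀ i, ∃ m, s i = 2 ^ m - 1) {a b c e : Fin d} (hab : a ≠ b)
    (hac : a ≠ c) (hae : a ≠ e) (hbc : b ≠ c) (hbe : b ≠ e) (hce : c ≠ e) (ha : s a = 1) (hb : s b = 1)
    (hc : s c = 1) (he : s e = 1) (N : ℕ) (hN : ∑ i, s i = N) (hz : zc s ∈ PH d N) :
    (⟨zc s, hz⟩ : PH d N) ∈ coinvRel d N := by
  have p0 : ∃ m, 0 = 2 ^ m - 1 := ⟨0, rfl⟩
  have p1 : ∃ m, 1 = 2 ^ m - 1 := ⟨1, rfl⟩
  have p3 : ∃ m, 3 = 2 ^ m - 1 := ⟨2, rfl⟩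
  have m3100 := E4_mem s hs hab hac hae hbc hbe hce ha hb hc he N hN 3 1 0 0 p3 p1 p0 p0 rfl
  have m0130 := E4_mem s hs hab hac hae hbc hbe hce ha hb hc he N hN 0 1 3 0 p0 p1 p3 p0 rfl
  have m0310 := E4_mem s hs hab hac hae hbc hbe hce ha hb hc he N hN 0 3 1 0 p0 p3 p1 p0 rfl
  -- the identities between the exponents
  have u1 : ∀ x z x' z', up2 (E4 s a b c e x 1 z 0) a c x' z' = E4 s a b c e x' 1 z' 0 := by
    intro x z x' z'
    funext i
    simp only [up2, E4, Function.update_apply]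
    split_ifs <;> simp_all
  have u2 : ∀ x y z u x' u', up2 (E4 s a b c e x y z u) a e x' u' = E4 s a b c e x' y z u' := by
    intro x y z u x' u'
    funext i
    simp only [up2, E4, Function.update_apply]
    split_ifs <;> simp_all
  have u3 : ∀ y z y' z', up2 (E4 s a b c e 0 y z 0) c b z' y' = E4 s a b c e 0 y' z' 0 := by
    intro y z y' z'
    funext i
    simp only [up2, E4, Function.update_apply]
    split_ifs <;> simp_all
  have us : E4 s a b c e 1 1 1 1 = s := by
    funext i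
    simp only [E4]
    split_ifs <;> simp_all
  have w1 : ∀ x y z u, E4 s a b c e x y z u ∘ Equiv.swap a e = E4 s a b c e u y z x := by
    intro x y z u
    funext i
    simp only [E4, Function.comp]
    by_cases h1 : i = a
    · subst h1; simp [hae.symm, hbe.symm, hce.symm]
    · by_cases h2 : i = e
      · subst h2; simp [hae.symm, hbe.symm, hce.symm]
      · rw [Equiv.swap_apply_of_ne_of_ne h1 h2]
        simp [h1, h2]
  have w2 : ∀ x y z u, E4 s a b c e x y z u ∘ Equiv.swap b c = E4 s a b c e x z y u := by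
    intro x y z u
    funext i
    simp only [E4, Function.comp]
    by_cases h1 : i = b
    · subst h1; simp [hab.symm, hac.symm, hbc.symm]
    · by_cases h2 : i = c
      · subst h2; simp [hab.symm, hac.symm, hbc.symm]
      · rw [Equiv.swap_apply_of_ne_of_ne h1 h2]
        simp [h1, h2]
  -- the identities between the functionals
  have f1 : (zc (E4 s a b c e 3 1 0 0)).comp (act d (tv a c hac).val).toLinearMap =
      zc (E4 s a b c e 3 1 0 0) + zc (E4 s a b c e 2 1 1 0) + zc (E4 s a b c e 1 1 2 0) +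
        zc (E4 s a b c e 0 1 3 0) := by
    have := tv30 a c hac (E4 s a b c e 3 1 0 0)
    simpa only [u1] using this
  have f2 : (zc (E4 s a b c e 2 1 1 0)).comp (act d (tv a e hae).val).toLinearMap =
      zc (E4 s a b c e 2 1 1 0) + zc s + zc (E4 s a b c e 0 1 1 2) := by
    have := tv20 a e hae (E4 s a b c e 2 1 1 0)
    simpa only [u2, us] using this
  have f3 : (zc (E4 s a b c e 1 1 2 0)).comp (act d (tv a e hae).val).toLinearMap =
      zc (E4 s a b c e 1 1 2 0) + zc (E4 s a b c e 0 1 2 1) := by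
    have := tv10 a e hae (E4 s a b c e 1 1 2 0)
    simpa only [u2] using this
  have f4 : (zc (E4 s a b c e 0 1 3 0)).comp (act d (tv c b hbc.symm).val).toLinearMap =
      zc (E4 s a b c e 0 1 3 0) + zc (E4 s a b c e 0 3 1 0) := by
    have := tv31 c b hbc.symm (E4 s a b c e 0 1 3 0)
    simpa only [u3] using this
  have f5 : (zc (E4 s a b c e 0 3 1 0)).comp (act d (sw b c).val).toLinearMap =
      zc (E4 s a b c e 0 1 3 0) := by
    have := zc_sw b c (E4 s a b c e 0 3 1 0)
    rwa [w2] at this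
  have f6 : (zc (E4 s a b c e 2 1 1 0)).comp (act d (sw a e).val).toLinearMap =
      zc (E4 s a b c e 0 1 1 2) := by
    have := zc_sw a e (E4 s a b c e 2 1 1 0)
    rwa [w1] at this
  have f7 : (zc (E4 s a b c e 1 1 2 0)).comp (act d (sw a e).val).toLinearMap =
      zc (E4 s a b c e 0 1 2 1) := by
    have := zc_sw a e (E4 s a b c e 1 1 2 0)
    rwa [w1] at this
  -- the elements of `PH`
  let Z1 : PH d N := ⟨_, m3100⟩
  let Z2 : PH d N := ⟨_, m0130⟩
  let Z3 : PH d N := ⟨_, m0310⟩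
  let Zs : PH d N := ⟨zc s, hz⟩
  let Y2 : PH d N := gact d N (tv a c hac) Z1 - Z1 - Z2
  have hY2 : Y2.1 = zc (E4 s a b c e 2 1 1 0) + zc (E4 s a b c e 1 1 2 0) := by
    show (zc (E4 s a b c e 3 1 0 0)).comp (act d (tv a c hac).val).toLinearMap -
      zc (E4 s a b c e 3 1 0 0) - zc (E4 s a b c e 0 1 3 0) = _
    rw [f1]
    abel
  let Y3 : PH d N := gact d N (sw a e) Y2
  have hY3 : Y3.1 = zc (E4 s a b c e 0 1 1 2) + zc (E4 s a b c e 0 1 2 1) := by
    show Y2.1.comp (act d (sw a e).val).toLinearMap = _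
    rw [hY2, LinearMap.add_comp, f6, f7]
  have g2 : gact d N (tv a e hae) Y2 = Y2 + Zs + Y3 := by
    apply Subtype.ext
    show Y2.1.comp (act d (tv a e hae).val).toLinearMap = Y2.1 + zc s + Y3.1
    rw [hY3, hY2, LinearMap.add_comp, f2, f3]
    abel
  have g4 : gact d N (tv c b hbc.symm) Z2 = Z2 + Z3 := by
    apply Subtype.ext
    exact f4
  have g5 : gact d N (sw b c) Z3 = Z2 := by
    apply Subtype.ext
    exact f5
  have q2 := mkQ_gact N (tv a e hae) Y2
  rw [g2, LinearMap.map_add, LinearMap.map_add] at q2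
  have q3 := mkQ_gact N (sw a e) Y2
  have q4 := mkQ_gact N (tv c b hbc.symm) Z2
  rw [g4, LinearMap.map_add] at q4
  have q5 := mkQ_gact N (sw b c) Z3
  rw [g5] at q5
  have q1 : (coinvRel d N).mkQ Y2 = - (coinvRel d N).mkQ Z2 := by
    have h1 : (coinvRel d N).mkQ Y2 = (coinvRel d N).mkQ (gact d N (tv a c hac) Z1) -
        (coinvRel d N).mkQ Z1 - (coinvRel d N).mkQ Z2 := by
      show (coinvRel d N).mkQ (gact d N (tv a c hac) Z1 - Z1 - Z2) = _
      rw [LinearMap.map_sub, LinearMap.map_sub]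
    rw [h1, mkQ_gact]
    abel
  have q6 : (coinvRel d N).mkQ Z3 = 0 := by
    have : (coinvRel d N).mkQ Z2 + (coinvRel d N).mkQ Z3 = (coinvRel d N).mkQ Z2 + 0 := by
      rw [add_zero]; exact q4
    exact add_left_cancel this
  have q7 : (coinvRel d N).mkQ Z2 = 0 := by rw [q5, q6]
  have q8 : (coinvRel d N).mkQ Y2 = 0 := by rw [q1, q7, neg_zero]
  have q9 : (coinvRel d N).mkQ Y3 = 0 := by rw [← q8]; exact q3
  have q10 : (coinvRel d N).mkQ Zs = 0 := by
    rw [q8, q9, zero_add, add_zero] at q2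
    exact q2
  rwa [Submodule.mkQ_apply, Submodule.Quotient.mk_eq_zero] at q10

theorem not_rel {n : ℕ} (z : PH d n) (f : Pol d) (hf : ∀ w : GL (Fin d) (ZMod 2), act d w.val f + f ∈ Hit d)
    (hz : z.1 f ≠ 0) : z ∉ coinvRel d n := by
  intro h
  apply hz
  have key : ∀ y ∈ coinvRel d n, y.1 f = 0 := by
    intro y hy
    unfold coinvRel at hy
    induction hy using Submodule.span_induction with
    | mem x hx =>
      obtain ⟨u, w, rfl⟩ := hx
      show u.1 (act d w.val f) - u.1 f = 0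
      have h1 : u.1 (act d w.val f + f) = 0 := PH_hit u.2 (hf w)
      rw [map_add] at h1
      have h2 : u.1 f + u.1 f = 0 := CharTwo.add_self_eq_zero _
      linear_combination h1 - h2
    | zero => rfl
    | add x y _ _ hx hy =>
      show x.1 f + y.1 f = 0
      rw [hx, hy, add_zero]
    | smul c x _ hx =>
      show c • (x.1 f) = 0
      rw [hx, smul_zero]
  exact key z h

theorem zc_half (s : Fin d → ℕ) : (zc s).comp (half d) = zc (fun i => 2 * s i + 1) := by
  apply lin_ext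
  intro t
  rw [LinearMap.comp_apply, half_mon, zc_mon]
  split_ifs with h1 h2 h3
  · rw [zc_mon, if_pos]
    funext i
    have := congrFun h2 i
    simp only [Finsupp.mapRange_apply]
    omega
  · rw [zc_mon, if_neg]
    intro h3
    apply h2
    funext i
    have h4 := congrFun h3 i
    have h5 := h1 i
    rw [Nat.odd_iff] at h5
    simp only [Finsupp.mapRange_apply] at h4
    omega
  · exfalso
    apply h1
    intro i
    rw [h3]
    exact ⟨s i, rfl⟩
  · exact map_zero _

theorem not_inj_of {n : ℕ} (s : Fin d → ℕ) (hs : ∀ i, ∃ m, s i = 2 ^ m - 1) (hn : ∑ i, s i = n)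
    {a b c e : Fin d} (hab : a ≠ b) (hac : a ≠ c) (hae : a ≠ e) (hbc : b ≠ c) (hbe : b ≠ e) (hce : c ≠ e)
    (ha : s a = 0) (hb : s b = 0) (hc : s c = 0) (he : s e = 0) (f : Pol d)
    (hf : ∀ w : GL (Fin d) (ZMod 2), act d w.val f + f ∈ Hit d) (hz : zc s f ≠ 0) :
    ¬ Function.Injective (squaring d n) := by
  intro hinj
  have hm := zc_mem s hs n hn
  let z : PH d n := ⟨zc s, hm⟩
  have h1 : z ∉ coinvRel d n := not_rel z f hf hz
  apply h1
  rw [← Submodule.Quotient.mk_eq_zero]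
  apply hinj
  rw [map_zero]
  show Submodule.Quotient.mk (kameko d n z) = 0
  rw [Submodule.Quotient.mk_eq_zero]
  have hs' : ∀ i, ∃ m, (fun i => 2 * s i + 1) i = 2 ^ m - 1 := by
    intro i
    obtain ⟨m, hm⟩ := hs i
    refine ⟨m + 1, ?_⟩
    have : 0 < 2 ^ m := by positivity
    show 2 * s i + 1 = 2 ^ (m + 1) - 1
    rw [pow_succ]
    omega
  have hN : ∑ i, (fun i => 2 * s i + 1) i = d + 2 * n := by
    show ∑ i, (2 * s i + 1) = d + 2 * n
    rw [Finset.sum_add_distrib, ← Finset.mul_sum, hn]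
    simp [add_comm]
  have hk : kameko d n z = ⟨zc (fun i => 2 * s i + 1), zc_mem _ hs' _ hN⟩ := by
    apply Subtype.ext
    exact zc_half s
  rw [hk]
  exact chain _ hs' hab hac hae hbc hbe hce (by simp [ha]) (by simp [hb]) (by simp [hc]) (by simp [he]) _ hN _

theorem FL_zero (L : List (Pol d)) (hL : ∀ a ∈ L, a = 0) : ∀ j, FL j L = 0 := by
  induction L with
  | nil => intro j; exact FL_nil j
  | cons a L ih =>
    intro j
    have ha : a = 0 := hL a (List.mem_cons_self ..)
    have ih' := ih fun b hb => hL b (List.mem_cons_of_mem _ hb)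
    cases j with
    | zero => rfl
    | succ j =>
      rw [FL_cons, ih', ih', ha]
      have : 2 ^ (j + 1) - 1 ≠ 0 := by
        have : 0 < 2 ^ j := by positivity
        rw [pow_succ]; omega
      rw [zero_pow this]
      ring

theorem zc_inv (k j : ℕ) : zc (fun i : Fin (k + 1) => if i = 0 then 2 ^ (j + 1) - 1 else 0)
    (inv (k + 1) (j + 1)) = 1 := by
  let φ : Pol (k + 1) →ₐ[ZMod 2] Pol (k + 1) := aeval fun i => if i = 0 then X 0 else 0
  have h1 : (zc (fun i : Fin (k + 1) => if i = 0 then 2 ^ (j + 1) - 1 else 0)).comp φ.toLinearMap =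
      zc (fun i : Fin (k + 1) => if i = 0 then 2 ^ (j + 1) - 1 else 0) := by
    apply lin_ext
    intro t
    show zc _ (φ (monomial t 1)) = zc _ (monomial t 1)
    rw [mon_eq, map_prod]
    by_cases h : ∀ i, i ≠ 0 → t i = 0
    · congr 1
      refine Finset.prod_congr rfl fun i _ => ?_
      rw [map_pow]
      by_cases hi : i = 0
      · subst hi; simp [φ]
      · rw [h i hi, pow_zero, pow_zero]
    · push Not at h
      obtain ⟨i, hi, hti⟩ := h
      have h2 : (∏ i, φ ((X i : Pol (k + 1)) ^ t i)) = 0 := by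
        apply Finset.prod_eq_zero (Finset.mem_univ i)
        rw [map_pow]
        have : φ (X i) = 0 := by simp [φ, hi]
        rw [this, zero_pow hti]
      rw [h2, map_zero, zc_mon', if_neg]
      intro h3
      have := congrFun h3 i
      rw [if_neg hi] at this
      exact hti this
  have h2 : φ (inv (k + 1) (j + 1)) = X 0 ^ (2 ^ (j + 1) - 1) := by
    rw [inv, FL_map, List.map_ofFn, List.ofFn_succ, FL_cons]
    have h3 : ∀ a ∈ (List.ofFn fun i : Fin k => (⇑φ ∘ fun i => X i) i.succ), a = (0 : Pol (k + 1)) := by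
      intro a ha
      rw [List.mem_ofFn] at ha
      obtain ⟨i, rfl⟩ := ha
      simp [φ]
    rw [FL_zero _ h3, FL_zero _ h3]
    simp [φ]
  have h3 : zc (fun i : Fin (k + 1) => if i = 0 then 2 ^ (j + 1) - 1 else 0) (φ (inv (k + 1) (j + 1))) =
      zc (fun i : Fin (k + 1) => if i = 0 then 2 ^ (j + 1) - 1 else 0) (inv (k + 1) (j + 1)) :=
    congrArg (fun L : Pol (k + 1) →ₗ[ZMod 2] ZMod 2 => L (inv (k + 1) (j + 1))) h1
  rw [← h3, h2]
  have h4 : (X 0 : Pol (k + 1)) ^ (2 ^ (j + 1) - 1) =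
      ∏ i, X i ^ ((fun i : Fin (k + 1) => if i = 0 then 2 ^ (j + 1) - 1 else 0) i) := by
    rw [Finset.prod_eq_single 0]
    · simp
    · intro i _ hi; simp [hi]
    · intro h; exact absurd (Finset.mem_univ _) h
  rw [h4, zc_mon', if_pos rfl]

theorem coinvRel_iff {n : ℕ} (x : PH d n) : x.1 ∈ CoinvRel d n ↔ x ∈ coinvRel d n := by
  have h : CoinvRel d n = (coinvRel d n).map (PH d n).subtype := by
    unfold coinvRel CoinvRel
    rw [Submodule.map_span]
    congr 1
    ext y
    constructor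
    · rintro ⟨z, hz, w, rfl⟩
      exact ⟨gact d n w ⟨z, hz⟩ - ⟨z, hz⟩, ⟨⟨z, hz⟩, w, rfl⟩, rfl⟩
    · rintro ⟨_, ⟨z, w, rfl⟩, rfl⟩
      exact ⟨z.1, z.2, w, rfl⟩
  rw [h, Submodule.mem_map]
  constructor
  · rintro ⟨y, hy, hyx⟩
    have : y = x := Subtype.ext hyx
    rwa [← this]
  · intro hx
    exact ⟨x, hx, rfl⟩

/-- the short form of injectivity is the injectivity of the map of quotients -/
theorem squaringInjective_iff (d n : ℕ) : SquaringInjective d n ↔ Function.Injective (squaring d n) := by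
  constructor
  · intro h
    rw [injective_iff_map_eq_zero]
    intro q hq
    obtain ⟨z, rfl⟩ := Submodule.Quotient.mk_surjective _ q
    rw [Submodule.Quotient.mk_eq_zero]
    have h1 : kameko d n z ∈ coinvRel d (d + 2 * n) := by
      rw [← Submodule.Quotient.mk_eq_zero]
      exact hq
    exact (coinvRel_iff z).1 (h z.1 z.2 ((coinvRel_iff (kameko d n z)).2 h1))
  · intro h z hz hk
    have h1 : kameko d n ⟨z, hz⟩ ∈ coinvRel d (d + 2 * n) := (coinvRel_iff _).1 hk
    have h2 : (Submodule.Quotient.mk (⟨z, hz⟩ : PH d n) : PH d n ⧸ coinvRel d n) = 0 := by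
      apply h
      rw [map_zero]
      show Submodule.Quotient.mk (kameko d n ⟨z, hz⟩) = 0
      rw [Submodule.Quotient.mk_eq_zero]
      exact h1
    rw [Submodule.Quotient.mk_eq_zero] at h2
    exact (coinvRel_iff ⟨z, hz⟩).2 h2

/-- in degree `0` the squaring operation is not injective for `d ≥ 4` -/
theorem not_inj_zero (d : ℕ) (hd : 4 ≤ d) : ¬ Function.Injective (squaring d 0) := by
  obtain ⟨k, rfl⟩ : ∃ k, d = k + 4 := ⟨d - 4, by omega⟩
  refine not_inj_of (a := ⟨0, by omega⟩) (b := ⟨1, by omega⟩) (c := ⟨2, by omega⟩) (e := ⟨3, by omega⟩)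
    (fun _ => 0) (fun _ => ⟨0, rfl⟩) (by simp) (by simp) (by simp) (by simp) (by simp) (by simp) (by simp)
    rfl rfl rfl rfl 1 ?_ ?_
  · intro w
    rw [map_one, add_self]
    exact Submodule.zero_mem _
  · have : (1 : Pol (k + 4)) = ∏ i : Fin (k + 4), X i ^ ((fun _ : Fin (k + 4) => 0) i) := by simp
    rw [this, zc_mon', if_pos rfl]
    exact one_ne_zero

/-- in degree `2 ^ j - 1`, `j ≥ d`, the squaring operation is not injective for `d ≥ 5` -/
theorem not_inj_pos (d j : ℕ) (hd : 5 ≤ d) (hj : d ≤ j) : ¬ Function.Injective (squaring d (2 ^ j - 1)) := by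
  obtain ⟨k, rfl⟩ : ∃ k, d = k + 5 := ⟨d - 5, by omega⟩
  obtain ⟨i, rfl⟩ : ∃ i, j = i + 1 := ⟨j - 1, by omega⟩
  have h1 : ∀ m : ℕ, ∀ h : m < k + 5, 0 < m → (⟨m, h⟩ : Fin (k + 5)) ≠ 0 := by
    intro m h hm hh
    have := congrArg Fin.val hh
    simp at this
    omega
  refine not_inj_of (a := ⟨1, by omega⟩) (b := ⟨2, by omega⟩) (c := ⟨3, by omega⟩) (e := ⟨4, by omega⟩)
    (fun i' => if i' = 0 then 2 ^ (i + 1) - 1 else 0) ?_ ?_ (by simp) (by simp) (by simp) (by simp)
    (by simp) (by simp) (if_neg (h1 _ _ (by omega))) (if_neg (h1 _ _ (by omega)))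
    (if_neg (h1 _ _ (by omega))) (if_neg (h1 _ _ (by omega))) (inv (k + 5) (i + 1)) ?_ ?_
  · intro i'
    by_cases h : i' = 0
    · exact ⟨i + 1, by rw [if_pos h]⟩
    · exact ⟨0, by rw [if_neg h]; rfl⟩
  · simp
  · intro w
    exact act_inv (i + 1) hj w.val (det_ne w)
  · rw [zc_inv]
    exact one_ne_zero

end Pool.Agent.R793.Kameko
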