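import Pool.Agent.R793.KamekoInv

/-! Invariance of the class under `GL_d`. -/

set_option autoImplicit false

namespace Pool.Agent.R793.Kameko

open MvPolynomial

variable {d : ℕ}

theorem zmod2 : ∀ c : ZMod 2, c = 0 ∨ c = 1 := by decide

theorem lin_C_mul (c : ZMod 2) {a : Pol d} (ha : Lin a) : Lin (C c * a) := by
  rcases zmod2 c with rfl | rfl
  · rw [C_0, zero_mul]; exact lin_zero
  · rw [C_1, one_mul]; exact ha

/-- the tuple transformed by a matrix -/
noncomputable def tr (w : Matrix (Fin d) (Fin d) (ZMod 2)) (v : Fin d → Pol d) : Fin d → Pol d :=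
  fun j => ∑ i, C (w i j) * v i

theorem tr_lin (w : Matrix (Fin d) (Fin d) (ZMod 2)) {v : Fin d → Pol d} (hv : ∀ i, Lin (v i)) (j : Fin d) :
    Lin (tr w v j) := lin_sum _ _ fun i _ => lin_C_mul _ (hv i)

theorem tr_mul (A B : Matrix (Fin d) (Fin d) (ZMod 2)) (v : Fin d → Pol d) :
    tr (A * B) v = tr B (tr A v) := by
  funext j
  unfold tr
  simp only [Matrix.mul_apply, map_sum, map_mul, Finset.sum_mul, Finset.mul_sum]
  rw [Finset.sum_comm]
  refine Finset.sum_congr rfl fun k _ => Finset.sum_congr rfl fun i _ => ?_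
  ring

theorem ofFn_perm (v : Fin d → Pol d) {p q : Fin d} (hpq : p ≠ q) :
    (List.ofFn v).Perm (v q :: v p :: (((Finset.univ.erase q).erase p).toList.map v)) := by
  rw [← Multiset.coe_eq_coe, ← Fin.univ_val_map, ← Multiset.cons_coe, ← Multiset.cons_coe,
    ← Multiset.map_coe, Finset.coe_toList, ← Multiset.map_cons, ← Multiset.map_cons]
  congr 1
  have h1 : p ∈ Finset.univ.erase q := Finset.mem_erase.2 ⟨hpq, Finset.mem_univ _⟩
  rw [Finset.erase_val _ p, Multiset.cons_erase (by exact h1), Finset.erase_val,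
    Multiset.cons_erase (Finset.mem_univ_val q)]

theorem eqv_transvection (j : ℕ) (hj : d ≤ j) (v : Fin d → Pol d) (hv : ∀ i, Lin (v i)) {p q : Fin d}
    (hpq : p ≠ q) (v' : Fin d → Pol d) (hq : v' q = v q + v p) (ho : ∀ i, i ≠ q → v' i = v i) :
    Eqv (FL j (List.ofFn v')) (FL j (List.ofFn v)) := by
  have hv' : ∀ i, Lin (v' i) := by
    intro i
    by_cases h : i = q
    · rw [h, hq]; exact lin_add (hv q) (hv p)
    · rw [ho i h]; exact hv i
  have hlin : ∀ u : Fin d → Pol d, (∀ i, Lin (u i)) → ∀ a ∈ List.ofFn u, Lin a := by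
    intro u hu a ha
    rw [List.mem_ofFn] at ha
    obtain ⟨i, rfl⟩ := ha
    exact hu i
  have hlen : ∀ u : Fin d → Pol d, (List.ofFn u).length ≤ j := by
    intro u
    rw [List.length_ofFn]; exact hj
  have h1 := eqv_perm (ofFn_perm v' hpq) (hlin v' hv') j (hlen v')
  have h2 := eqv_perm (ofFn_perm v hpq) (hlin v hv) j (hlen v)
  refine h1.trans (Eqv.trans ?_ h2.symm)
  have hL := (ofFn_perm v hpq).length_eq
  rw [List.length_ofFn, List.length_cons, List.length_cons] at hL
  have hmap : ((Finset.univ.erase q).erase p).toList.map v' = ((Finset.univ.erase q).erase p).toList.map v := by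
    apply List.map_congr_left
    intro i hi
    rw [Finset.mem_toList, Finset.mem_erase, Finset.mem_erase] at hi
    exact ho i hi.2.1
  rw [hmap, hq, ho p hpq]
  obtain ⟨i, rfl⟩ : ∃ i, j = i + 2 := ⟨j - 2, by omega⟩
  refine eqv_addL (hv q) (hv p) _ ?_ i (by omega)
  intro a ha
  rw [List.mem_map] at ha
  obtain ⟨k, _, rfl⟩ := ha
  exact hv k

theorem eqv_tr (j : ℕ) (hj : d ≤ j) (w : Matrix (Fin d) (Fin d) (ZMod 2)) (hw : w.det ≠ 0) :
    ∀ v : Fin d → Pol d, (∀ i, Lin (v i)) → Eqv (FL j (List.ofFn (tr w v))) (FL j (List.ofFn v)) := by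
  refine Matrix.diagonal_transvection_induction_of_det_ne_zero
    (fun w => ∀ v : Fin d → Pol d, (∀ i, Lin (v i)) → Eqv (FL j (List.ofFn (tr w v))) (FL j (List.ofFn v)))
    w hw ?_ ?_ ?_
  · intro D hD v hv
    rw [Matrix.det_diagonal, Finset.prod_ne_zero_iff] at hD
    have h1 : ∀ i, D i = 1 := by
      intro i
      have := hD i (Finset.mem_univ i)
      generalize D i = x at this ⊢
      fin_cases x
      · exact absurd rfl this
      · rfl
    have h2 : D = fun _ => 1 := funext h1
    have h3 : tr (Matrix.diagonal D) v = v := by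
      funext k
      unfold tr
      rw [Finset.sum_eq_single k]
      · rw [Matrix.diagonal_apply_eq, h1, C_1, one_mul]
      · intro i _ hi
        rw [Matrix.diagonal_apply_ne _ hi, C_0, zero_mul]
      · intro h; exact absurd (Finset.mem_univ k) h
    rw [h3]
    exact Eqv.refl _
  · intro t v hv
    obtain ⟨p, q, hpq, c⟩ := t
    have hc : c = 0 ∨ c = 1 := zmod2 c
    have hT : ∀ i k, (Matrix.TransvectionStruct.toMatrix ⟨p, q, hpq, c⟩ : Matrix (Fin d) (Fin d) (ZMod 2)) i k =
        (if i = k then 1 else 0) + (if p = i ∧ q = k then c else 0) := by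
      intro i k
      rw [Matrix.TransvectionStruct.toMatrix, Matrix.transvection, Matrix.add_apply, Matrix.one_apply,
        Matrix.single_apply]
    have htr : ∀ k, tr (Matrix.TransvectionStruct.toMatrix ⟨p, q, hpq, c⟩) v k =
        v k + (if q = k then C c * v p else 0) := by
      intro k
      unfold tr
      simp only [hT, map_add, add_mul, Finset.sum_add_distrib]
      congr 1
      · rw [Finset.sum_eq_single k]
        · simp
        · intro i _ hi
          simp [hi]
        · intro h; exact absurd (Finset.mem_univ k) h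
      · rw [Finset.sum_eq_single p]
        · by_cases h : q = k
          · simp [h]
          · simp [h]
        · intro i _ hi
          simp [Ne.symm hi]
        · intro h; exact absurd (Finset.mem_univ p) h
    rcases hc with rfl | rfl
    · have : tr (Matrix.TransvectionStruct.toMatrix ⟨p, q, hpq, (0 : ZMod 2)⟩) v = v := by
        funext k
        rw [htr]
        simp
      rw [this]
      exact Eqv.refl _
    · refine eqv_transvection j hj v hv hpq _ ?_ ?_
      · rw [htr]; simp
      · intro i hi
        rw [htr, if_neg (Ne.symm hi), add_zero]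
  · intro A B _ _ hA hB v hv
    rw [tr_mul]
    exact (hB _ (tr_lin A hv)).trans (hA v hv)

theorem FL_map (φ : Pol d →ₐ[ZMod 2] Pol d) (l : List (Pol d)) : ∀ j : ℕ, φ (FL j l) = FL j (l.map φ) := by
  induction l with
  | nil => intro j; rw [FL_nil, List.map_nil, FL_nil, map_zero]
  | cons a l ih =>
    intro j
    cases j with
    | zero => exact map_zero φ
    | succ j =>
      rw [FL_cons, List.map_cons, FL_cons, map_add, map_add, map_mul, map_pow, map_pow, ih, ih]

/-- the invariant class -/
noncomputable def inv (d j : ℕ) : Pol d := FL j (List.ofFn fun i : Fin d => (X i : Pol d))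

theorem act_inv (j : ℕ) (hj : d ≤ j) (w : Matrix (Fin d) (Fin d) (ZMod 2)) (hw : w.det ≠ 0) :
    act d w (inv d j) + inv d j ∈ Hit d := by
  have h := eqv_tr j hj w hw (fun i => X i) lin_X
  have h2 : act d w (inv d j) = FL j (List.ofFn (tr w fun i => X i)) := by
    rw [inv, FL_map, List.map_ofFn]
    congr 2
    funext k
    simp only [Function.comp, act, tr, aeval_X]
  rw [h2]
  exact h

end Pool.Agent.R793.Kameko
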