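import Pool.Agent.R793.KamekoPH

/-! Properties of the halving map. -/

set_option autoImplicit false

namespace Pool.Agent.R793.Kameko

open MvPolynomial

variable {d : ℕ}

theorem half_mon (t : Fin d →₀ ℕ) : half d (monomial t 1) =
    if ∀ i, Odd (t i) then monomial (t.mapRange (fun m => (m - 1) / 2) (by norm_num)) 1 else 0 := by
  unfold half
  have := (basisMonomials (Fin d) (ZMod 2)).constr_basis (ZMod 2) (fun t : Fin d →₀ ℕ =>
    if ∀ i, Odd (t i) then (monomial (Finsupp.equivFunOnFinite.symm fun i => (t i - 1) / 2) 1 : Pol d)
      else 0) t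
  rw [coe_basisMonomials] at this
  rw [this]
  have h : (Finsupp.equivFunOnFinite.symm fun i => (t i - 1) / 2 : Fin d →₀ ℕ) =
      t.mapRange (fun m => (m - 1) / 2) (by norm_num) := by
    ext i
    rfl
  rw [h]

theorem half_sq_mul (g h : Pol d) : half d (g ^ 2 * h) = g * half d h := by
  have key : ∀ m t : Fin d →₀ ℕ, half d ((monomial m 1 : Pol d) ^ 2 * monomial t 1) =
      monomial m 1 * half d (monomial t 1) := by
    intro m t
    rw [monomial_pow, one_pow, monomial_mul, one_mul, half_mon, half_mon]
    by_cases ht : ∀ i, Odd (t i)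
    · have h2 : ∀ i, Odd ((2 • m + t) i) := by
        intro i
        have := ht i
        rw [Nat.odd_iff] at this ⊢
        simp only [Finsupp.coe_add, Finsupp.coe_smul, Pi.add_apply, Pi.smul_apply, smul_eq_mul]
        omega
      have h3 : (2 • m + t).mapRange (fun m => (m - 1) / 2) (by norm_num) =
          m + t.mapRange (fun m => (m - 1) / 2) (by norm_num) := by
        ext i
        have := ht i
        rw [Nat.odd_iff] at this
        simp only [Finsupp.mapRange_apply, Finsupp.coe_add, Finsupp.coe_smul, Pi.add_apply,
          Pi.smul_apply, smul_eq_mul]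
        omega
      rw [if_pos ht, if_pos h2, monomial_mul, one_mul, h3]
    · have h2 : ¬ ∀ i, Odd ((2 • m + t) i) := by
        intro h; apply ht
        intro i
        have := h i
        rw [Nat.odd_iff] at this ⊢
        simp only [Finsupp.coe_add, Finsupp.coe_smul, Pi.add_apply, Pi.smul_apply, smul_eq_mul] at this
        omega
      rw [if_neg ht, if_neg h2, mul_zero]
  have key2 : ∀ (m : Fin d →₀ ℕ) (h : Pol d), half d ((monomial m 1 : Pol d) ^ 2 * h) =
      monomial m 1 * half d h := by
    intro m h
    have : (half d).comp (LinearMap.mulLeft (ZMod 2) ((monomial m 1 : Pol d) ^ 2)) =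
        (LinearMap.mulLeft (ZMod 2) (monomial m 1 : Pol d)).comp (half d) := by
      apply lin_ext
      intro t
      exact key m t
    exact congrArg (fun L : Pol d →ₗ[ZMod 2] Pol d => L h) this
  induction g using MvPolynomial.induction_on' with
  | monomial m c =>
    rcases zmod2 c with rfl | rfl
    · simp
    · exact key2 m h
  | add p q hp hq =>
    rw [add_pow_char, add_mul, map_add, hp, hq, add_mul]

/-- the exponents modulo 2 -/
noncomputable def ep (t : Fin d →₀ ℕ) : Fin d →₀ ℕ := t.mapRange (fun m => m % 2) rfl
/-- the halved exponents -/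
noncomputable def hp (t : Fin d →₀ ℕ) : Fin d →₀ ℕ := t.mapRange (fun m => m / 2) rfl

theorem ep_apply (t : Fin d →₀ ℕ) (i : Fin d) : ep t i = t i % 2 := rfl

theorem mon_split (t : Fin d →₀ ℕ) : (monomial t 1 : Pol d) = (monomial (hp t) 1) ^ 2 * monomial (ep t) 1 := by
  have h : 2 • hp t + ep t = t := by
    ext i
    simp only [hp, ep, Finsupp.mapRange_apply, Finsupp.coe_add, Finsupp.coe_smul, Pi.add_apply,
        Pi.smul_apply, smul_eq_mul]
    omega
  rw [monomial_pow, one_pow, monomial_mul, one_mul, h]

theorem half_mon' (t : Fin d → ℕ) (h : ∃ i, t i % 2 = 0) : half d (∏ i, X i ^ t i) = 0 := by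
  have : (∏ i, (X i : Pol d) ^ t i) = monomial (Finsupp.equivFunOnFinite.symm t) 1 := by
    rw [mon_eq]; rfl
  rw [this, half_mon, if_neg]
  intro hh
  obtain ⟨i, hi⟩ := h
  have := hh i
  rw [Nat.odd_iff] at this
  have h3 : (Finsupp.equivFunOnFinite.symm t) i = t i := rfl
  omega

theorem half_sq_ep (t : Fin d →₀ ℕ) (b : ℕ) (hb : 0 < b) : half d (Sq d b (monomial (ep t) 1)) = 0 := by
  rw [sq_mon, map_sum]
  refine Finset.sum_eq_zero fun κ hκ => ?_
  split_ifs with h
  · have h2 : ∃ i, 0 < κ i := by
      by_contra hcon
      push Not at hcon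
      have : ∑ i, κ i = 0 := Finset.sum_eq_zero fun i _ => by have := hcon i; omega
      omega
    obtain ⟨i, hi⟩ := h2
    have h3 : κ i < ep t i + 1 := by
      have := Fintype.mem_piFinset.1 hκ i
      exact Finset.mem_range.1 this
    rw [ep_apply] at h3
    rw [← Nat.cast_prod, ← nsmul_eq_mul, map_nsmul, half_mon', smul_zero]
    refine ⟨i, ?_⟩
    rw [ep_apply]
    omega
  · exact map_zero _

theorem half_sq (k : ℕ) (f : Pol d) : half d (Sq d k f) = if Even k then Sq d (k / 2) (half d f) else 0 := by
  have key : ∀ t : Fin d →₀ ℕ, half d (Sq d k (monomial t 1)) =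
      if Even k then Sq d (k / 2) (half d (monomial t 1)) else 0 := by
    intro t
    have h1 : Sq d k (monomial t 1) = ∑ x ∈ Finset.HasAntidiagonal.antidiagonal k,
        ((totalSq d (monomial (hp t) 1)) ^ 2).coeff x.1 * Sq d x.2 (monomial (ep t) 1) := by
      conv_lhs => rw [mon_split t]
      unfold Sq
      rw [map_mul, map_pow, Polynomial.coeff_mul]
    rw [h1, map_sum, Finset.sum_eq_single (k, 0)]
    · have h2 : half d (monomial t 1) = monomial (hp t) 1 * half d (monomial (ep t) 1) := by
        conv_lhs => rw [mon_split t]
        exact half_sq_mul _ _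
      have h0 : Sq d 0 (monomial (ep t) 1) = monomial (ep t) 1 := sq0_eq _
      have h01 : half d (monomial (ep t) 1) = 0 ∨ half d (monomial (ep t) 1) = 1 := by
        rw [half_mon]
        split_ifs with h
        · right
          have : (ep t).mapRange (fun m => (m - 1) / 2) (by norm_num) = 0 := by
            ext i
            rw [Finsupp.mapRange_apply, ep_apply]
            simp only [Finsupp.coe_zero, Pi.zero_apply]
            omega
          rw [this]
          rfl
        · left; rfl
      by_cases hk : Even k
      · obtain ⟨m, hm⟩ := hk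
        have hm2 : k = 2 * m := by omega
        subst hm2
        rw [if_pos (by exact ⟨m, hm⟩), coeff_sq_even, h0, half_sq_mul, h2,
          show 2 * m / 2 = m by omega]
        rcases h01 with h | h
        · rw [h, mul_zero, mul_zero]
          unfold Sq
          rw [map_zero, Polynomial.coeff_zero]
        · rw [h, mul_one, mul_one]
          rfl
      · rw [if_neg hk]
        have h3 : ((totalSq d (monomial (hp t) 1)) ^ 2).coeff k = 0 := by
          rw [← Polynomial.map_frobenius_expand 2, Polynomial.coeff_map,
            Polynomial.coeff_expand (by norm_num), if_neg, map_zero]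
          intro h; apply hk
          exact even_iff_two_dvd.2 h
        rw [h3, zero_mul, map_zero]
    · rintro ⟨a, b⟩ hab hne
      have hab' : a + b = k := Finset.HasAntidiagonal.mem_antidiagonal.1 hab
      have hb : 0 < b := by
        rcases Nat.eq_zero_or_pos b with rfl | h
        · exfalso; apply hne
          rw [add_zero] at hab'
          rw [hab']
        · exact h
      by_cases ha : Even a
      · obtain ⟨m, hm⟩ := ha
        have hm2 : a = 2 * m := by omega
        subst hm2
        rw [coeff_sq_even, half_sq_mul, half_sq_ep t b hb, mul_zero]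
      · have h3 : ((totalSq d (monomial (hp t) 1)) ^ 2).coeff a = 0 := by
          rw [← Polynomial.map_frobenius_expand 2, Polynomial.coeff_map,
            Polynomial.coeff_expand (by norm_num), if_neg, map_zero]
          intro h; apply ha
          exact even_iff_two_dvd.2 h
        rw [h3, zero_mul, map_zero]
    · intro h
      exact absurd (Finset.HasAntidiagonal.mem_antidiagonal.2 (add_zero k)) h
  by_cases hk : Even k
  · rw [if_pos hk]
    have : (half d).comp (SqL d k) = (SqL d (k / 2)).comp (half d) := by
      apply lin_ext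
      intro t
      rw [LinearMap.comp_apply, LinearMap.comp_apply, SqL_apply, SqL_apply, key t, if_pos hk]
    exact congrArg (fun L : Pol d →ₗ[ZMod 2] Pol d => L f) this
  · rw [if_neg hk]
    have : (half d).comp (SqL d k) = 0 := by
      apply lin_ext
      intro t
      rw [LinearMap.comp_apply, LinearMap.zero_apply, SqL_apply, key t, if_neg hk]
    exact congrArg (fun L : Pol d →ₗ[ZMod 2] Pol d => L f) this

end Pool.Agent.R793.Kameko
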