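import Pool.Agent.R793.KamekoDefs

/-! Hit polynomials: relations between the monomials of weight `(1, 1, …, 1)`. -/

set_option autoImplicit false

namespace Pool.Agent.R793.Kameko

open MvPolynomial

variable {d : ℕ}

/-- the hit polynomials -/
noncomputable def Hit (d : ℕ) : Submodule (ZMod 2) (Pol d) :=
  Submodule.span (ZMod 2) {g | ∃ (k : ℕ) (f : Pol d), 0 < k ∧ g = Sq d k f}

theorem sq_hit {k : ℕ} (hk : 0 < k) (f : Pol d) : Sq d k f ∈ Hit d :=
  Submodule.subset_span ⟨k, f, hk, rfl⟩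

theorem two_eq : (2 : Pol d) = 0 := by
  have := CharP.cast_eq_zero (Pol d) 2
  exact_mod_cast this

theorem two_eq' : (2 : Polynomial (Pol d)) = 0 := by
  have := CharP.cast_eq_zero (Polynomial (Pol d)) 2
  exact_mod_cast this

theorem add_self (a : Pol d) : a + a = 0 := by
  have := two_eq (d := d)
  linear_combination a * this

/-- the square of a polynomial in `T` -/
theorem coeff_sq_even (F : Polynomial (Pol d)) (m : ℕ) : (F ^ 2).coeff (2 * m) = (F.coeff m) ^ 2 := by
  rw [← Polynomial.map_frobenius_expand 2 F, Polynomial.coeff_map, mul_comm,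
    Polynomial.coeff_expand_mul (by norm_num)]
  rfl

/-- `a` behaves like a linear form -/
def Lin (a : Pol d) : Prop :=
  totalSq d a = Polynomial.C a + Polynomial.X * Polynomial.C (a ^ 2)

theorem lin_X (i : Fin d) : Lin (X i : Pol d) := by
  unfold Lin totalSq
  rw [aeval_X]

theorem lin_add {a b : Pol d} (ha : Lin a) (hb : Lin b) : Lin (a + b) := by
  unfold Lin at *
  rw [map_add, ha, hb]
  have := two_eq' (d := d)
  simp only [map_add, map_pow]
  linear_combination (- Polynomial.X * Polynomial.C a * Polynomial.C b) * this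

theorem lin_zero : Lin (0 : Pol d) := by
  unfold Lin
  simp

theorem lin_sum {ι : Type} (s : Finset ι) (f : ι → Pol d) (h : ∀ i ∈ s, Lin (f i)) :
    Lin (∑ i ∈ s, f i) := by
  classical
  induction s using Finset.induction_on with
  | empty => simpa using lin_zero
  | insert a s ha ih =>
    rw [Finset.sum_insert ha]
    exact lin_add (h a (Finset.mem_insert_self _ _))
      (ih fun i hi => h i (Finset.mem_insert_of_mem hi))

theorem lin_pow {a : Pol d} (ha : Lin a) (r : ℕ) :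
    totalSq d (a ^ 2 ^ r) =
      Polynomial.C (a ^ 2 ^ r) + Polynomial.X ^ 2 ^ r * Polynomial.C (a ^ 2 ^ (r + 1)) := by
  rw [map_pow, ha, add_pow_char_pow, mul_pow, ← map_pow, ← map_pow, ← pow_mul]
  congr 4
  ring

theorem telescope {v : Pol d} (hv : Lin v) (Y : Pol d) (A : ℕ) :
    Polynomial.C v * totalSq d Y +
      Polynomial.X ^ (2 ^ A - 1) * (Polynomial.C (v ^ 2 ^ A) * totalSq d Y) =
    ∑ a ∈ Finset.range A, Polynomial.X ^ (2 ^ a - 1) * totalSq d (v ^ 2 ^ a * Y) := by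
  induction A with
  | zero =>
    have := two_eq' (d := d)
    simp
    linear_combination (Polynomial.C v * totalSq d Y) * this
  | succ A ih =>
    rw [Finset.sum_range_succ, ← ih, map_mul, lin_pow hv]
    have h1 : 2 ^ (A + 1) - 1 = (2 ^ A - 1) + 2 ^ A := by
      have : 0 < 2 ^ A := by positivity
      rw [pow_succ]; omega
    rw [h1, pow_add]
    have := two_eq' (d := d)
    linear_combination (-Polynomial.X ^ (2 ^ A - 1) * (Polynomial.C (v ^ 2 ^ A) * totalSq d Y)) * this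

/-- for `v` linear and `H` hit, `v * H ^ 2` is hit -/
theorem mul_sq_hit {v : Pol d} (hv : Lin v) {h : Pol d} (hh : h ∈ Hit d) : v * h ^ 2 ∈ Hit d := by
  unfold Hit at hh
  induction hh using Submodule.span_induction with
  | mem x hx =>
    obtain ⟨m, Y, hm, rfl⟩ := hx
    have h1 : (Sq d m Y) ^ 2 = (totalSq d (Y ^ 2)).coeff (2 * m) := by
      rw [map_pow, coeff_sq_even]
      rfl
    have h2 := congrArg (fun F => Polynomial.coeff F (2 * m)) (telescope hv (Y ^ 2) (2 * m + 1))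
    simp only [Polynomial.coeff_add, Polynomial.coeff_C_mul, Polynomial.coeff_X_pow_mul',
      Polynomial.finsetSum_coeff] at h2
    have h3 : ¬ (2 ^ (2 * m + 1) - 1 ≤ 2 * m) := by
      have : 2 * m + 1 < 2 ^ (2 * m + 1) := Nat.lt_two_pow_self
      omega
    rw [if_neg h3, add_zero] at h2
    rw [h1, h2]
    refine Submodule.sum_mem _ fun a _ => ?_
    split_ifs with ha
    · apply sq_hit
      have : 2 ^ a - 1 ≠ 2 * m := by
        rcases Nat.eq_zero_or_pos a with rfl | ha'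
        · simp; omega
        · obtain ⟨b, rfl⟩ : ∃ b, a = b + 1 := ⟨a - 1, by omega⟩
          have : 0 < 2 ^ b := by positivity
          rw [pow_succ]; omega
      omega
    · exact Submodule.zero_mem _
  | zero => simp
  | add x y _ _ hx hy =>
    have : v * (x + y) ^ 2 = v * x ^ 2 + v * y ^ 2 := by
      rw [add_pow_char]; ring
    rw [this]
    exact Submodule.add_mem _ hx hy
  | smul c x _ hx =>
    have : v * (c • x) ^ 2 = c ^ 2 • (v * x ^ 2) := by
      rw [smul_pow, mul_smul_comm]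
    rw [this]
    exact Submodule.smul_mem _ _ hx

theorem sq0_eq (f : Pol d) : (totalSq d f).coeff 0 = f := by
  have : ((Polynomial.constantCoeff : Polynomial (Pol d) →+* Pol d).comp
      (totalSq d : Pol d →ₐ[ZMod 2] Polynomial (Pol d)).toRingHom) = RingHom.id _ := by
    apply MvPolynomial.ringHom_ext
    · intro r
      simp [totalSq]
    · intro i
      simp [totalSq]
  exact congrArg (fun g : Pol d →+* Pol d => g f) this

theorem sq1_mul (f g : Pol d) : Sq d 1 (f * g) = Sq d 1 f * g + f * Sq d 1 g := by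
  unfold Sq
  rw [map_mul, Polynomial.mul_coeff_one, sq0_eq, sq0_eq]
  ring

theorem sq2_mul (f g : Pol d) : Sq d 2 (f * g) = Sq d 2 f * g + Sq d 1 f * Sq d 1 g + f * Sq d 2 g := by
  unfold Sq
  rw [map_mul, Polynomial.coeff_mul]
  simp [Finset.Nat.antidiagonal_succ, sq0_eq]
  ring

theorem sq_pow_zero (h : Pol d) (r k : ℕ) (hk : 0 < k) (hr : k < 2 ^ r) : Sq d k (h ^ 2 ^ r) = 0 := by
  unfold Sq
  have h1 : totalSq d h = Polynomial.C h + Polynomial.X * (totalSq d h).divX := by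
    conv_lhs => rw [← Polynomial.divX_mul_X_add (totalSq d h), sq0_eq]
    ring
  rw [map_pow, h1, add_pow_char_pow, mul_pow, ← map_pow, Polynomial.coeff_add,
    Polynomial.coeff_X_pow_mul', if_neg (by omega), Polynomial.coeff_C, if_neg (by omega), add_zero]

theorem sq1_lin {a : Pol d} (ha : Lin a) : Sq d 1 a = a ^ 2 := by
  unfold Sq
  rw [ha, Polynomial.coeff_add, Polynomial.coeff_X_mul, Polynomial.coeff_C, if_neg one_ne_zero,
    Polynomial.coeff_C, if_pos rfl, zero_add]

theorem sq2_lin {a : Pol d} (ha : Lin a) : Sq d 2 a = 0 := by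
  unfold Sq
  rw [ha, Polynomial.coeff_add, Polynomial.coeff_C, if_neg (by norm_num)]
  have := Polynomial.coeff_X_mul (Polynomial.C (a ^ 2)) 1
  rw [this, Polynomial.coeff_C, if_neg (by norm_num), zero_add]

theorem sq1_pow {a : Pol d} (ha : Lin a) (n : ℕ) : Sq d 1 (a ^ n) = n * a ^ (n + 1) := by
  induction n with
  | zero =>
    unfold Sq
    simp [Polynomial.coeff_one]
  | succ n ih =>
    rw [pow_succ, sq1_mul, ih, sq1_lin ha]
    push_cast
    ring

theorem sq2_pow2 {a : Pol d} (ha : Lin a) : Sq d 2 (a ^ 2) = a ^ 4 := by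
  rw [pow_two, sq2_mul, sq1_lin ha, sq2_lin ha]
  ring

theorem sq2_pow3 {a : Pol d} (ha : Lin a) : Sq d 2 (a ^ 3) = a ^ 5 := by
  have := two_eq (d := d)
  rw [pow_succ, sq2_mul, sq1_lin ha, sq2_lin ha, sq2_pow2 ha, sq1_pow ha]
  push_cast
  linear_combination (a ^ 5) * this

/-- relation A -/
theorem hitA {a b : Pol d} (ha : Lin a) (hb : Lin b) (h : Pol d) :
    a * (b * h ^ 2) ^ 2 + b * (a * h ^ 2) ^ 2 ∈ Hit d := by
  have h1 : a * (b * h ^ 2) ^ 2 + b * (a * h ^ 2) ^ 2 = Sq d 1 (a * b * h ^ 2 ^ 2) := by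
    rw [sq1_mul, sq1_mul, sq1_lin ha, sq1_lin hb, sq_pow_zero h 2 1 (by norm_num) (by norm_num)]
    ring
  rw [h1]
  exact sq_hit one_pos _

/-- relation B -/
theorem hitB {a b : Pol d} (ha : Lin a) (hb : Lin b) (h : Pol d) :
    a * (b * (b * h ^ 2) ^ 2) ^ 2 + a * (a * (b * h ^ 2) ^ 2) ^ 2 ∈ Hit d := by
  have h1 : a * (b * (b * h ^ 2) ^ 2) ^ 2 + a * (a * (b * h ^ 2) ^ 2) ^ 2 =
      Sq d 1 (a ^ 3 * b ^ 3 * h ^ 2 ^ 3) + Sq d 2 (a ^ 2 * b ^ 3 * h ^ 2 ^ 3) +
        Sq d 1 (a * b ^ 5 * h ^ 2 ^ 3) := by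
    have h2 := two_eq (d := d)
    rw [sq1_mul, sq1_mul, sq1_pow ha, sq1_pow hb, sq2_mul, sq2_mul, sq2_pow2 ha, sq2_pow3 hb,
      sq1_mul, sq1_mul, sq1_mul, sq1_pow ha, sq1_pow hb, sq1_pow hb, sq1_lin ha,
      sq_pow_zero h 3 1 (by norm_num) (by norm_num), sq_pow_zero h 3 2 (by norm_num) (by norm_num)]
    push_cast
    linear_combination (-a ^ 4 * b ^ 3 * h ^ 8 * 2 - a ^ 3 * b ^ 4 * h ^ 8 -
      a ^ 2 * b ^ 5 * h ^ 8 - a * b ^ 6 * h ^ 8 * 2 - 3 * a ^ 3 * b ^ 4 * h ^ 8) * h2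
  rw [h1]
  exact Submodule.add_mem _ (Submodule.add_mem _ (sq_hit one_pos _) (sq_hit two_pos _))
    (sq_hit one_pos _)

end Pool.Agent.R793.Kameko
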