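import Pool.Agent.R793.KamekoHit

/-! An invariant class in `QP_d` in degree `2 ^ j - 1`, for `j ≥ d`. -/

set_option autoImplicit false

namespace Pool.Agent.R793.Kameko

open MvPolynomial

variable {d : ℕ}

/-- congruence modulo hit polynomials -/
def Eqv (x y : Pol d) : Prop := x + y ∈ Hit d

theorem Eqv.refl (x : Pol d) : Eqv x x := by
  unfold Eqv
  rw [add_self]
  exact Submodule.zero_mem _

theorem Eqv.of_eq {x y : Pol d} (h : x = y) : Eqv x y := h ▸ Eqv.refl x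

theorem Eqv.symm {x y : Pol d} (h : Eqv x y) : Eqv y x := by
  unfold Eqv at *
  rwa [add_comm]

theorem Eqv.trans {x y z : Pol d} (h : Eqv x y) (h' : Eqv y z) : Eqv x z := by
  unfold Eqv at *
  have := Submodule.add_mem _ h h'
  have h2 : x + y + (y + z) = x + z := by
    linear_combination add_self y
  rwa [h2] at this

theorem Eqv.add {x y x' y' : Pol d} (h : Eqv x y) (h' : Eqv x' y') : Eqv (x + x') (y + y') := by
  unfold Eqv at *
  have := Submodule.add_mem _ h h'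
  have h2 : x + y + (x' + y') = x + x' + (y + y') := by ring
  rwa [h2] at this

theorem Eqv.mul_sq {v : Pol d} (hv : Lin v) {x y : Pol d} (h : Eqv x y) : Eqv (v * x ^ 2) (v * y ^ 2) := by
  unfold Eqv at *
  have := mul_sq_hit hv h
  rw [add_pow_char] at this
  rwa [mul_add] at this

theorem eqvA {a b : Pol d} (ha : Lin a) (hb : Lin b) (h : Pol d) :
    Eqv (a * (b * h ^ 2) ^ 2) (b * (a * h ^ 2) ^ 2) := hitA ha hb h

theorem eqvB {a b : Pol d} (ha : Lin a) (hb : Lin b) (h : Pol d) :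
    Eqv (a * (b * (b * h ^ 2) ^ 2) ^ 2) (a * (a * (b * h ^ 2) ^ 2) ^ 2) := hitB ha hb h

theorem pow_N (a : Pol d) (j : ℕ) : a ^ (2 ^ (j + 1) - 1) = a * (a ^ (2 ^ j - 1)) ^ 2 := by
  rw [← pow_mul, ← pow_succ']
  congr 1
  have : 0 < 2 ^ j := by positivity
  rw [pow_succ]
  omega

/-- `a b^(2(2^m-1)) ≡ b a^(2(2^m-1))` for `m ≥ 1` -/
theorem eqvG {a b : Pol d} (ha : Lin a) (hb : Lin b) (m : ℕ) :
    Eqv (a * (b ^ (2 ^ (m + 1) - 1)) ^ 2) (b * (a ^ (2 ^ (m + 1) - 1)) ^ 2) := by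
  induction m with
  | zero =>
    have := eqvA ha hb 1
    simpa using this
  | succ m ih =>
    rw [pow_N b (m + 1)]
    refine (eqvA ha hb _).trans ?_
    refine (Eqv.mul_sq hb ih).trans ?_
    rw [pow_N a (m + 1), pow_N a m]
    exact (eqvB hb ha _).symm

/-- `(a+b)^(2^j-1) ≡ a^(2^j-1) + b^(2^j-1)` for `j ≥ 1` -/
theorem eqvF {a b : Pol d} (ha : Lin a) (hb : Lin b) (j : ℕ) :
    Eqv ((a + b) ^ (2 ^ (j + 1) - 1)) (a ^ (2 ^ (j + 1) - 1) + b ^ (2 ^ (j + 1) - 1)) := by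
  induction j with
  | zero => simpa using Eqv.refl (a + b)
  | succ j ih =>
    rw [pow_N (a + b) (j + 1)]
    refine (Eqv.mul_sq (lin_add ha hb) ih).trans ?_
    rw [pow_N a (j + 1), pow_N b (j + 1)]
    have h1 : (a + b) * (a ^ (2 ^ (j + 1) - 1) + b ^ (2 ^ (j + 1) - 1)) ^ 2 =
        (a * (a ^ (2 ^ (j + 1) - 1)) ^ 2 + b * (b ^ (2 ^ (j + 1) - 1)) ^ 2) +
        (a * (b ^ (2 ^ (j + 1) - 1)) ^ 2 + b * (a ^ (2 ^ (j + 1) - 1)) ^ 2) := by
      rw [add_pow_char]; ring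
    rw [h1]
    have h2 : Eqv (a * (b ^ (2 ^ (j + 1) - 1)) ^ 2 + b * (a ^ (2 ^ (j + 1) - 1)) ^ 2) 0 := by
      have := eqvG ha hb j
      unfold Eqv at *
      rwa [add_zero]
    have := (Eqv.refl (a * (a ^ (2 ^ (j + 1) - 1)) ^ 2 + b * (b ^ (2 ^ (j + 1) - 1)) ^ 2)).add h2
    rwa [add_zero] at this

/-- the sum of the classes of the nonempty subsets -/
noncomputable def FL : ℕ → List (Pol d) → Pol d
  | _, [] => 0
  | 0, _ :: _ => 0
  | j + 1, a :: l => a ^ (2 ^ (j + 1) - 1) + a * (FL j l) ^ 2 + FL (j + 1) l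

theorem FL_nil (j : ℕ) : FL j ([] : List (Pol d)) = 0 := by
  cases j <;> rfl

theorem FL_cons (j : ℕ) (a : Pol d) (l : List (Pol d)) :
    FL (j + 1) (a :: l) = a ^ (2 ^ (j + 1) - 1) + a * (FL j l) ^ 2 + FL (j + 1) l := rfl

theorem eqvD (l : List (Pol d)) : (∀ a ∈ l, Lin a) → ∀ (j : ℕ), l.length ≤ j → ∀ b : Pol d, Lin b →
    Eqv (b * (FL (j + 1) l) ^ 2) (b * (b * (FL j l) ^ 2) ^ 2) := by
  induction l with
  | nil =>
    intro _ j _ b hb
    rw [FL_nil, FL_nil]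
    apply Eqv.of_eq
    ring
  | cons c l ih =>
    intro hl j hj b hb
    have hc : Lin c := hl c (List.mem_cons_self ..)
    have hl' : ∀ a ∈ l, Lin a := fun a ha => hl a (List.mem_cons_of_mem _ ha)
    rw [List.length_cons] at hj
    obtain ⟨i, rfl⟩ : ∃ i, j = i + 1 := ⟨j - 1, by omega⟩
    rw [FL_cons, FL_cons]
    have e1 : b * (c ^ (2 ^ (i + 1 + 1) - 1) + c * FL (i + 1) l ^ 2 + FL (i + 1 + 1) l) ^ 2 =
        b * (c ^ (2 ^ (i + 1 + 1) - 1)) ^ 2 + b * (c * FL (i + 1) l ^ 2) ^ 2 +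
          b * (FL (i + 1 + 1) l) ^ 2 := by
      rw [add_pow_char, add_pow_char]; ring
    have e2 : b * (b * (c ^ (2 ^ (i + 1) - 1) + c * FL i l ^ 2 + FL (i + 1) l) ^ 2) ^ 2 =
        b * (b * (c ^ (2 ^ (i + 1) - 1)) ^ 2) ^ 2 + b * (b * (c * FL i l ^ 2) ^ 2) ^ 2 +
          b * (b * (FL (i + 1) l) ^ 2) ^ 2 := by
      rw [add_pow_char, add_pow_char, mul_add, mul_add, add_pow_char, add_pow_char]; ring
    rw [e1, e2]
    refine Eqv.add (Eqv.add ?_ ?_) (ih hl' (i + 1) (by omega) b hb)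
    · rw [pow_N c (i + 1), pow_N c i]
      exact eqvB hb hc _
    · exact ((ih hl' i (by omega) c hc).mul_sq hb).trans (eqvB hb hc _)

theorem eqv_swap {a b : Pol d} (ha : Lin a) (hb : Lin b) (l : List (Pol d)) (j : ℕ) :
    Eqv (FL (j + 2) (a :: b :: l)) (FL (j + 2) (b :: a :: l)) := by
  rw [FL_cons, FL_cons, FL_cons, FL_cons, FL_cons, FL_cons]
  have e : ∀ x y : Pol d,
      x ^ (2 ^ (j + 1 + 1) - 1) +
          x * (y ^ (2 ^ (j + 1) - 1) + y * FL j l ^ 2 + FL (j + 1) l) ^ 2 +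
        (y ^ (2 ^ (j + 1 + 1) - 1) + y * FL (j + 1) l ^ 2 + FL (j + 1 + 1) l) =
      (x ^ (2 ^ (j + 1 + 1) - 1) + y ^ (2 ^ (j + 1 + 1) - 1) + FL (j + 1 + 1) l +
        x * FL (j + 1) l ^ 2 + y * FL (j + 1) l ^ 2) + x * (y ^ (2 ^ (j + 1) - 1)) ^ 2 +
        x * (y * FL j l ^ 2) ^ 2 := by
    intro x y
    rw [add_pow_char, add_pow_char]; ring
  rw [e, e]
  refine Eqv.add (Eqv.add (Eqv.of_eq (by ring)) (eqvG ha hb j)) (eqvA ha hb _)

theorem eqv_addL {a b : Pol d} (ha : Lin a) (hb : Lin b) (l : List (Pol d)) (hl : ∀ a ∈ l, Lin a)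
    (j : ℕ) (hj : l.length ≤ j) :
    Eqv (FL (j + 2) ((a + b) :: b :: l)) (FL (j + 2) (a :: b :: l)) := by
  rw [FL_cons (j + 1) (a + b), FL_cons (j + 1) a]
  have e1 : (a + b) ^ (2 ^ (j + 1 + 1) - 1) + (a + b) * FL (j + 1) (b :: l) ^ 2 +
      FL (j + 1 + 1) (b :: l) = ((a + b) ^ (2 ^ (j + 1 + 1) - 1) + b * FL (j + 1) (b :: l) ^ 2) +
      (a * FL (j + 1) (b :: l) ^ 2 + FL (j + 1 + 1) (b :: l)) := by ring
  rw [e1, add_assoc (a ^ _)]
  refine Eqv.add ?_ (Eqv.refl _)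
  rw [FL_cons]
  have e2 : b * (b ^ (2 ^ (j + 1) - 1) + b * FL j l ^ 2 + FL (j + 1) l) ^ 2 =
      b ^ (2 ^ (j + 1 + 1) - 1) + (b * (b * FL j l ^ 2) ^ 2 + b * FL (j + 1) l ^ 2) := by
    rw [pow_N b (j + 1), add_pow_char, add_pow_char]; ring
  rw [e2]
  have h1 := eqvF ha hb (j + 1)
  have h2 : Eqv (b * (b * FL j l ^ 2) ^ 2 + b * FL (j + 1) l ^ 2) 0 := by
    have := eqvD l hl j hj b hb
    unfold Eqv at *
    rwa [add_zero, add_comm]
  have h3 := (h1.add (Eqv.refl (b ^ (2 ^ (j + 1 + 1) - 1)))).add h2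
  have e3 : a ^ (2 ^ (j + 1 + 1) - 1) + b ^ (2 ^ (j + 1 + 1) - 1) + b ^ (2 ^ (j + 1 + 1) - 1) + 0 =
      a ^ (2 ^ (j + 1 + 1) - 1) := by
    linear_combination add_self (b ^ (2 ^ (j + 1 + 1) - 1))
  rw [e3] at h3
  refine Eqv.trans (Eqv.of_eq ?_) h3
  ring

theorem eqv_perm {l l' : List (Pol d)} (h : l.Perm l') : (∀ a ∈ l, Lin a) → ∀ j : ℕ, l.length ≤ j →
    Eqv (FL j l) (FL j l') := by
  induction h with
  | nil => intro _ j _; exact Eqv.refl _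
  | cons a h ih =>
    rename_i l1 l2
    intro hl j hj
    rw [List.length_cons] at hj
    obtain ⟨i, rfl⟩ : ∃ i, j = i + 1 := ⟨j - 1, by omega⟩
    have hl' : ∀ a ∈ l1, Lin a := fun b hb => hl b (List.mem_cons_of_mem _ hb)
    rw [FL_cons, FL_cons]
    exact ((Eqv.refl _).add ((ih hl' i (by omega)).mul_sq (hl a (List.mem_cons_self ..)))).add
      (ih hl' (i + 1) (by omega))
  | swap a b l =>
    intro hl j hj
    rw [List.length_cons, List.length_cons] at hj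
    obtain ⟨i, rfl⟩ : ∃ i, j = i + 2 := ⟨j - 2, by omega⟩
    exact eqv_swap (hl b (by simp)) (hl a (by simp)) l i
  | trans h1 h2 ih1 ih2 =>
    intro hl j hj
    refine (ih1 hl j hj).trans (ih2 ?_ j ?_)
    · intro a ha
      exact hl a (h1.mem_iff.2 ha)
    · rw [← h1.length_eq]; exact hj

end Pool.Agent.R793.Kameko
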