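import Pool.Agent.R793.KamekoMap

/-! The kernel of Kameko's squaring operation on the coinvariants. -/

set_option autoImplicit false

namespace Pool.Agent.R793.Kameko

open MvPolynomial

variable {d : ℕ}

/-- the transvection `x_q ↦ x_q + x_p` -/
noncomputable def tv (p q : Fin d) (h : p ≠ q) : GL (Fin d) (ZMod 2) :=
  Matrix.GeneralLinearGroup.mkOfDetNeZero (Matrix.transvection p q (1 : ZMod 2))
    (by rw [Matrix.det_transvection_of_ne p q h]; exact one_ne_zero)

theorem tv_val (p q : Fin d) (h : p ≠ q) : (tv p q h).val = Matrix.transvection p q (1 : ZMod 2) := rfl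

theorem act_tv (p q : Fin d) (h : p ≠ q) (k : Fin d) :
    act d (tv p q h).val (X k) = (X k : Pol d) + (if q = k then X p else 0) := by
  rw [tv_val, act_X]
  unfold tr
  have hT : ∀ i, (Matrix.transvection p q (1 : ZMod 2)) i k =
      (if i = k then 1 else 0) + (if p = i ∧ q = k then 1 else 0) := by
    intro i
    rw [Matrix.transvection, Matrix.add_apply, Matrix.one_apply, Matrix.single_apply]
  simp only [hT, map_add, add_mul, Finset.sum_add_distrib]
  congr 1
  · rw [Finset.sum_eq_single k]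
    · simp
    · intro i _ hi
      simp [hi]
    · intro h; exact absurd (Finset.mem_univ k) h
  · rw [Finset.sum_eq_single p]
    · by_cases h : q = k
      · simp [h]
      · simp [h]
    · intro i _ hi
      simp [Ne.symm hi]
    · intro h; exact absurd (Finset.mem_univ p) h

/-- the permutation matrix of a transposition -/
noncomputable def sw (p q : Fin d) : GL (Fin d) (ZMod 2) :=
  Matrix.GeneralLinearGroup.mkOfDetNeZero ((Equiv.swap p q).permMatrix (ZMod 2)) (by
    rw [Matrix.det_permutation]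
    rcases Int.units_eq_one_or (Equiv.Perm.sign (Equiv.swap p q)) with h | h
    · rw [h]; norm_num
    · rw [h]; decide)

theorem act_sw (p q k : Fin d) : act d (sw p q).val (X k) = (X (Equiv.swap p q k) : Pol d) := by
  have : (sw p q).val = (Equiv.swap p q).permMatrix (ZMod 2) := rfl
  rw [this, act_X]
  unfold tr
  rw [Finset.sum_eq_single (Equiv.swap p q k)]
  · simp [Equiv.Perm.permMatrix, PEquiv.toMatrix_apply]
  · intro i _ hi
    have h2 : Equiv.swap p q i ≠ k := by
      rintro rfl
      exact hi (Equiv.swap_apply_self p q i).symm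
    simp [Equiv.Perm.permMatrix, PEquiv.toMatrix_apply, h2]
  · intro h; exact absurd (Finset.mem_univ _) h

theorem zc_sw (p q : Fin d) (s : Fin d → ℕ) :
    (zc s).comp (act d (sw p q).val).toLinearMap = zc (s ∘ Equiv.swap p q) := by
  apply lin_ext
  intro t
  show zc s (act d (sw p q).val (monomial t 1)) = _
  rw [mon_eq, map_prod]
  have h1 : ∀ i, act d (sw p q).val ((X i : Pol d) ^ t i) = X (Equiv.swap p q i) ^ t i := by
    intro i
    rw [map_pow, act_sw]
  simp_rw [h1]
  have h2 : (∏ i, (X (Equiv.swap p q i) : Pol d) ^ t i) = ∏ i, X i ^ (t (Equiv.swap p q i)) := by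
    rw [← Equiv.prod_comp (Equiv.swap p q) (fun i => (X i : Pol d) ^ (t (Equiv.swap p q i)))]
    refine Finset.prod_congr rfl fun i _ => ?_
    rw [Equiv.swap_apply_self]
  rw [h2, zc_mon', zc_mon']
  refine if_congr ?_ rfl rfl
  constructor
  · rintro rfl
    funext i
    simp
  · intro h
    funext i
    have := congrFun h (Equiv.swap p q i)
    simpa using this

theorem zc_tv (p q : Fin d) (h : p ≠ q) (s t : Fin d → ℕ) :
    zc s (act d (tv p q h).val (∏ i, X i ^ t i)) =
      if (∀ i, i ≠ p → i ≠ q → t i = s i) ∧ t p + t q = s p + s q then ((t q).choose (s q) : ZMod 2)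
      else 0 := by
  have h1 : (∏ i, (X i : Pol d) ^ (t i)) = X q ^ t q * ∏ i, X i ^ (Function.update t q 0 i) := by
    rw [← Finset.mul_prod_erase _ _ (Finset.mem_univ q),
      ← Finset.mul_prod_erase Finset.univ (fun i => (X i : Pol d) ^ (Function.update t q 0 i)) (Finset.mem_univ q),
      Function.update_self, pow_zero, one_mul]
    congr 1
    refine Finset.prod_congr rfl fun i hi => ?_
    rw [Function.update_of_ne (Finset.ne_of_mem_erase hi)]
  have hfix : ∀ i, i ≠ q → act d (tv p q h).val (X i) = (X i : Pol d) := by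
    intro i hi
    rw [act_tv, if_neg (Ne.symm hi), add_zero]
  rw [h1, map_mul, act_fix _ q hfix _ (by simp), map_pow, act_tv, if_pos rfl, add_pow, Finset.sum_mul,
    map_sum]
  have h2 : ∀ r, zc s ((X q : Pol d) ^ r * X p ^ (t q - r) * ((t q).choose r : Pol d) *
      ∏ i, X i ^ (Function.update t q 0 i)) = ((t q).choose r : ZMod 2) *
      (if (fun i => Function.update t q 0 i + ((if i = q then r else 0) +
        (if i = p then t q - r else 0))) = s then 1 else 0) := by
    intro r
    have h3 : (X q : Pol d) ^ r * X p ^ (t q - r) * ((t q).choose r : Pol d) *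
      ∏ i, X i ^ (Function.update t q 0 i) = (t q).choose r • ∏ i, (X i : Pol d) ^
        (Function.update t q 0 i + ((if i = q then r else 0) + (if i = p then t q - r else 0))) := by
      simp_rw [pow_add]
      rw [Finset.prod_mul_distrib, Finset.prod_mul_distrib, nsmul_eq_mul]
      have h4 : (∏ i, (X i : Pol d) ^ (if i = q then r else 0)) = X q ^ r := by
        rw [Finset.prod_eq_single q]
        · simp
        · intro i _ hi; simp [hi]
        · intro h; exact absurd (Finset.mem_univ _) h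
      have h5 : (∏ i, (X i : Pol d) ^ (if i = p then t q - r else 0)) = X p ^ (t q - r) := by
        rw [Finset.prod_eq_single p]
        · simp
        · intro i _ hi; simp [hi]
        · intro h; exact absurd (Finset.mem_univ _) h
      rw [h4, h5]
      ring
    rw [h3, map_nsmul, zc_mon', nsmul_eq_mul]
  rw [Finset.sum_congr rfl fun r _ => h2 r]
  by_cases hc : (∀ i, i ≠ p → i ≠ q → t i = s i) ∧ t p + t q = s p + s q
  · rw [if_pos hc]
    by_cases hle : s q ≤ t q
    · rw [Finset.sum_eq_single (s q)]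
      · rw [if_pos, mul_one]
        funext i
        by_cases hq : i = q
        · subst hq
          simp [Ne.symm h]
        · by_cases hp : i = p
          · subst hp
            simp only [Function.update_of_ne hq, if_neg hq, if_pos, zero_add]
            omega
          · simp only [Function.update_of_ne hq, if_neg hq, if_neg hp, add_zero]
            exact hc.1 i hp hq
      · intro r _ hr
        rw [if_neg, mul_zero]
        intro hh
        apply hr
        have := congrFun hh q
        simp [Ne.symm h] at this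
        exact this
      · intro hh
        exfalso
        apply hh
        rw [Finset.mem_range]; omega
    · rw [Nat.choose_eq_zero_of_lt (by omega), Nat.cast_zero]
      refine Finset.sum_eq_zero fun r hr => ?_
      rw [if_neg, mul_zero]
      intro hh
      have := congrFun hh q
      simp [Ne.symm h] at this
      rw [Finset.mem_range] at hr
      omega
  · rw [if_neg hc]
    refine Finset.sum_eq_zero fun r hr => ?_
    rw [if_neg, mul_zero]
    intro hh
    apply hc
    rw [Finset.mem_range] at hr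
    have h6 := congrFun hh q
    have h7 := congrFun hh p
    simp [Ne.symm h] at h6
    simp [h] at h7
    refine ⟨fun i hp hq => ?_, by omega⟩
    have := congrFun hh i
    simpa [hp, hq] using this

/-- exponents with two changed values -/
theorem fun_eq_iff (p q : Fin d) (h : p ≠ q) (s t : Fin d → ℕ) (x y : ℕ) :
    t = Function.update (Function.update s p x) q y ↔
      (∀ i, i ≠ p → i ≠ q → t i = s i) ∧ t p = x ∧ t q = y := by
  constructor
  · rintro rfl
    refine ⟨fun i hp hq => ?_, ?_, ?_⟩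
    · rw [Function.update_of_ne hq, Function.update_of_ne hp]
    · rw [Function.update_of_ne h, Function.update_self]
    · rw [Function.update_self]
  · rintro ⟨h1, h2, h3⟩
    funext i
    by_cases hq : i = q
    · subst hq; rw [Function.update_self, h3]
    · rw [Function.update_of_ne hq]
      by_cases hp : i = p
      · subst hp; rw [Function.update_self, h2]
      · rw [Function.update_of_ne hp]; exact h1 i hp hq

/-- `s` with the values `x`, `y` at `p`, `q` -/
def up2 (s : Fin d → ℕ) (p q : Fin d) (x y : ℕ) : Fin d → ℕ :=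
  Function.update (Function.update s p x) q y

theorem zc_up2 (p q : Fin d) (h : p ≠ q) (s t : Fin d → ℕ) (x y : ℕ) :
    zc (up2 s p q x y) (∏ i, X i ^ t i) =
      if (∀ i, i ≠ p → i ≠ q → t i = s i) ∧ t p = x ∧ t q = y then 1 else 0 := by
  rw [zc_mon']
  refine if_congr (fun_eq_iff p q h s t x y) rfl rfl

theorem zc_tv_up2 (p q : Fin d) (h : p ≠ q) (s t : Fin d → ℕ) (x y : ℕ) :
    zc (up2 s p q x y) (act d (tv p q h).val (∏ i, X i ^ t i)) =
      if (∀ i, i ≠ p → i ≠ q → t i = s i) ∧ t p + t q = x + y then ((t q).choose y : ZMod 2)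
      else 0 := by
  rw [zc_tv]
  have h1 : (up2 s p q x y) p = x := by
    unfold up2; rw [Function.update_of_ne h, Function.update_self]
  have h2 : (up2 s p q x y) q = y := by
    unfold up2; rw [Function.update_self]
  rw [h1, h2]
  refine if_congr ?_ rfl rfl
  refine and_congr ?_ Iff.rfl
  refine forall_congr' fun i => forall_congr' fun hp => forall_congr' fun hq => ?_
  unfold up2
  rw [Function.update_of_ne hq, Function.update_of_ne hp]

theorem tv30 (p q : Fin d) (h : p ≠ q) (s : Fin d → ℕ) :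
    (zc (up2 s p q 3 0)).comp (act d (tv p q h).val).toLinearMap =
      zc (up2 s p q 3 0) + zc (up2 s p q 2 1) + zc (up2 s p q 1 2) + zc (up2 s p q 0 3) := by
  apply lin_ext
  intro t
  show zc (up2 s p q 3 0) (act d (tv p q h).val (monomial t 1)) = zc (up2 s p q 3 0) (monomial t 1) +
    zc (up2 s p q 2 1) (monomial t 1) + zc (up2 s p q 1 2) (monomial t 1) + zc (up2 s p q 0 3) (monomial t 1)
  rw [mon_eq, zc_tv_up2, zc_up2 _ _ h, zc_up2 _ _ h, zc_up2 _ _ h, zc_up2 _ _ h]
  by_cases h1 : ∀ i, i ≠ p → i ≠ q → t i = s i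
  · have e : ∀ a b : ℕ, ((∀ i, i ≠ p → i ≠ q → t i = s i) ∧ t p = a ∧ t q = b) ↔ (t p = a ∧ t q = b) :=
      fun a b => ⟨fun h => h.2, fun h => ⟨h1, h⟩⟩
    have e2 : ((∀ i, i ≠ p → i ≠ q → t i = s i) ∧ t p + t q = 3 + 0) ↔ (t p + t q = 3) :=
      ⟨fun h => h.2, fun h => ⟨h1, h⟩⟩
    simp only [e, e2, Nat.choose_zero_right, Nat.cast_one]
    generalize t p = a
    generalize t q = b
    by_cases hab : a + b = 3
    · have : (a = 3 ∧ b = 0) ∨ (a = 2 ∧ b = 1) ∨ (a = 1 ∧ b = 2) ∨ (a = 0 ∧ b = 3) := by omega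
      rcases this with ⟨rfl, rfl⟩ | ⟨rfl, rfl⟩ | ⟨rfl, rfl⟩ | ⟨rfl, rfl⟩ <;> simp
    · rw [if_neg hab, if_neg (by omega), if_neg (by omega), if_neg (by omega), if_neg (by omega)]
      rfl
  · simp [h1]

theorem tv20 (p q : Fin d) (h : p ≠ q) (s : Fin d → ℕ) :
    (zc (up2 s p q 2 0)).comp (act d (tv p q h).val).toLinearMap =
      zc (up2 s p q 2 0) + zc (up2 s p q 1 1) + zc (up2 s p q 0 2) := by
  apply lin_ext
  intro t
  show zc (up2 s p q 2 0) (act d (tv p q h).val (monomial t 1)) = zc (up2 s p q 2 0) (monomial t 1) +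
    zc (up2 s p q 1 1) (monomial t 1) + zc (up2 s p q 0 2) (monomial t 1)
  rw [mon_eq, zc_tv_up2, zc_up2 _ _ h, zc_up2 _ _ h, zc_up2 _ _ h]
  by_cases h1 : ∀ i, i ≠ p → i ≠ q → t i = s i
  · have e : ∀ a b : ℕ, ((∀ i, i ≠ p → i ≠ q → t i = s i) ∧ t p = a ∧ t q = b) ↔ (t p = a ∧ t q = b) :=
      fun a b => ⟨fun h => h.2, fun h => ⟨h1, h⟩⟩
    have e2 : ((∀ i, i ≠ p → i ≠ q → t i = s i) ∧ t p + t q = 2 + 0) ↔ (t p + t q = 2) :=
      ⟨fun h => h.2, fun h => ⟨h1, h⟩⟩
    simp only [e, e2, Nat.choose_zero_right, Nat.cast_one]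
    generalize t p = a
    generalize t q = b
    by_cases hab : a + b = 2
    · have : (a = 2 ∧ b = 0) ∨ (a = 1 ∧ b = 1) ∨ (a = 0 ∧ b = 2) := by omega
      rcases this with ⟨rfl, rfl⟩ | ⟨rfl, rfl⟩ | ⟨rfl, rfl⟩ <;> simp
    · rw [if_neg hab, if_neg (by omega), if_neg (by omega), if_neg (by omega)]
      rfl
  · simp [h1]

theorem tv10 (p q : Fin d) (h : p ≠ q) (s : Fin d → ℕ) :
    (zc (up2 s p q 1 0)).comp (act d (tv p q h).val).toLinearMap =
      zc (up2 s p q 1 0) + zc (up2 s p q 0 1) := by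
  apply lin_ext
  intro t
  show zc (up2 s p q 1 0) (act d (tv p q h).val (monomial t 1)) = zc (up2 s p q 1 0) (monomial t 1) +
    zc (up2 s p q 0 1) (monomial t 1)
  rw [mon_eq, zc_tv_up2, zc_up2 _ _ h, zc_up2 _ _ h]
  by_cases h1 : ∀ i, i ≠ p → i ≠ q → t i = s i
  · have e : ∀ a b : ℕ, ((∀ i, i ≠ p → i ≠ q → t i = s i) ∧ t p = a ∧ t q = b) ↔ (t p = a ∧ t q = b) :=
      fun a b => ⟨fun h => h.2, fun h => ⟨h1, h⟩⟩
    have e2 : ((∀ i, i ≠ p → i ≠ q → t i = s i) ∧ t p + t q = 1 + 0) ↔ (t p + t q = 1) :=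
      ⟨fun h => h.2, fun h => ⟨h1, h⟩⟩
    simp only [e, e2, Nat.choose_zero_right, Nat.cast_one]
    generalize t p = a
    generalize t q = b
    by_cases hab : a + b = 1
    · have : (a = 1 ∧ b = 0) ∨ (a = 0 ∧ b = 1) := by omega
      rcases this with ⟨rfl, rfl⟩ | ⟨rfl, rfl⟩ <;> simp
    · rw [if_neg hab, if_neg (by omega), if_neg (by omega)]
      rfl
  · simp [h1]

theorem tv31 (p q : Fin d) (h : p ≠ q) (s : Fin d → ℕ) :
    (zc (up2 s p q 3 1)).comp (act d (tv p q h).val).toLinearMap =
      zc (up2 s p q 3 1) + zc (up2 s p q 1 3) := by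
  apply lin_ext
  intro t
  show zc (up2 s p q 3 1) (act d (tv p q h).val (monomial t 1)) = zc (up2 s p q 3 1) (monomial t 1) +
    zc (up2 s p q 1 3) (monomial t 1)
  rw [mon_eq, zc_tv_up2, zc_up2 _ _ h, zc_up2 _ _ h]
  by_cases h1 : ∀ i, i ≠ p → i ≠ q → t i = s i
  · have e : ∀ a b : ℕ, ((∀ i, i ≠ p → i ≠ q → t i = s i) ∧ t p = a ∧ t q = b) ↔ (t p = a ∧ t q = b) :=
      fun a b => ⟨fun h => h.2, fun h => ⟨h1, h⟩⟩
    have e2 : ((∀ i, i ≠ p → i ≠ q → t i = s i) ∧ t p + t q = 3 + 1) ↔ (t p + t q = 4) :=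
      ⟨fun h => h.2, fun h => ⟨h1, h⟩⟩
    simp only [e, e2]
    generalize t p = a
    generalize t q = b
    by_cases hab : a + b = 4
    · have : (a = 4 ∧ b = 0) ∨ (a = 3 ∧ b = 1) ∨ (a = 2 ∧ b = 2) ∨ (a = 1 ∧ b = 3) ∨ (a = 0 ∧ b = 4) := by
        omega
      rcases this with ⟨rfl, rfl⟩ | ⟨rfl, rfl⟩ | ⟨rfl, rfl⟩ | ⟨rfl, rfl⟩ | ⟨rfl, rfl⟩ <;> decide
    · rw [if_neg hab, if_neg (by omega), if_neg (by omega)]
      rfl
  · simp [h1]

end Pool.Agent.R793.Kameko
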