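import Pool.Agent.R793.KamekoHalf

/-! The action of `GL_d` on `PH_n`, Kameko's map and the map induced on the coinvariants. -/

set_option autoImplicit false

namespace Pool.Agent.R793.Kameko

open MvPolynomial

variable {d : ℕ}

theorem act_X (w : Matrix (Fin d) (Fin d) (ZMod 2)) (j : Fin d) :
    act d w (X j) = tr w (fun i => X i) j := by
  simp only [act, tr, aeval_X]

theorem totalSq_act (w : Matrix (Fin d) (Fin d) (ZMod 2)) (f : Pol d) :
    totalSq d (act d w f) = Polynomial.map (act d w).toRingHom (totalSq d f) := by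
  have : (totalSq d).comp (act d w) = (Polynomial.mapAlgHom (act d w)).comp (totalSq d) := by
    apply MvPolynomial.algHom_ext
    intro j
    have h1 : totalSq d (act d w (X j)) = Polynomial.C (act d w (X j)) +
        Polynomial.X * Polynomial.C ((act d w (X j)) ^ 2) := by
      rw [act_X]
      exact tr_lin w lin_X j
    have h2 : totalSq d (X j) = Polynomial.C (X j) + Polynomial.X * Polynomial.C ((X j) ^ 2) := lin_X j
    rw [AlgHom.comp_apply, AlgHom.comp_apply, h1, h2]
    simp
  exact congrArg (fun g : Pol d →ₐ[ZMod 2] Polynomial (Pol d) => g f) this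

theorem sq_act (w : Matrix (Fin d) (Fin d) (ZMod 2)) (k : ℕ) (f : Pol d) :
    Sq d k (act d w f) = act d w (Sq d k f) := by
  unfold Sq
  rw [totalSq_act, Polynomial.coeff_map]
  rfl

theorem H_homog {n m : ℕ} {z : Module.Dual (ZMod 2) (Pol d)} (hz : z ∈ H d n) (hm : m ≠ n) {f : Pol d}
    (hf : f.IsHomogeneous m) : z f = 0 := by
  rw [f.as_sum, map_sum]
  refine Finset.sum_eq_zero fun s hs => ?_
  have h1 : s.degree = m := by
    have := hf (mem_support_iff.1 hs)
    rw [← this, Finsupp.degree_eq_weight_one]
    rfl
  have h2 : monomial s (coeff s f) = (coeff s f) • (monomial s (1 : ZMod 2)) := by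
    rw [smul_monomial, smul_eq_mul, mul_one]
  rw [h2, map_smul, mem_H.1 hz s (by omega), smul_zero]

theorem act_homog (w : Matrix (Fin d) (Fin d) (ZMod 2)) (s : Fin d →₀ ℕ) :
    (act d w (monomial s 1)).IsHomogeneous s.degree := by
  rw [mon_eq, map_prod, Finsupp.degree_eq_sum]
  apply IsHomogeneous.prod
  intro i _
  rw [map_pow, act_X]
  have : (tr w (fun i => (X i : Pol d)) i).IsHomogeneous 1 := by
    unfold tr
    apply IsHomogeneous.sum
    intro k _
    have := (isHomogeneous_C (Fin d) (w k i)).mul (isHomogeneous_X (ZMod 2) k)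
    simpa using this
  have := this.pow (s i)
  simpa using this

theorem act_mem {n : ℕ} (w : Matrix (Fin d) (Fin d) (ZMod 2)) {z : Module.Dual (ZMod 2) (Pol d)}
    (hz : z ∈ PH d n) : z.comp (act d w).toLinearMap ∈ PH d n := by
  refine mem_PH.2 ⟨mem_H.2 fun s hs => ?_, fun k hk f => ?_⟩
  · exact H_homog (mem_PH.1 hz).1 hs (act_homog w s)
  · have : z (act d w (Sq d k f)) = 0 := by
      rw [← sq_act]
      exact (mem_PH.1 hz).2 k hk _
    exact this

theorem half_mem {n : ℕ} {z : Module.Dual (ZMod 2) (Pol d)} (hz : z ∈ PH d n) :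
    z.comp (half d) ∈ PH d (d + 2 * n) := by
  refine mem_PH.2 ⟨mem_H.2 fun s hs => ?_, fun k hk f => ?_⟩
  · rw [LinearMap.comp_apply, half_mon]
    split_ifs with h
    · apply mem_H.1 (mem_PH.1 hz).1
      intro hn
      apply hs
      rw [Finsupp.degree_eq_sum] at hn ⊢
      have h2 : ∀ i, s i = 1 + 2 * ((s.mapRange (fun m => (m - 1) / 2) (by norm_num)) i) := by
        intro i
        have := h i
        rw [Nat.odd_iff] at this
        simp only [Finsupp.mapRange_apply]
        omega
      rw [Finset.sum_congr rfl fun i _ => h2 i, Finset.sum_add_distrib, ← Finset.mul_sum, hn]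
      simp
    · exact map_zero z
  · rw [LinearMap.comp_apply, half_sq]
    split_ifs with h
    · apply (mem_PH.1 hz).2
      obtain ⟨m, hm⟩ := h
      omega
    · exact map_zero z

theorem act_mul (A B : Matrix (Fin d) (Fin d) (ZMod 2)) (f : Pol d) :
    act d (A * B) f = act d A (act d B f) := by
  have : act d (A * B) = (act d A).comp (act d B) := by
    apply MvPolynomial.algHom_ext
    intro j
    rw [AlgHom.comp_apply, act_X, tr_mul, act_X]
    unfold tr
    simp only [map_sum, map_mul, act_X]
    refine Finset.sum_congr rfl fun i _ => ?_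
    congr 1
    exact (AlgHom.commutes (act d A) (B i j)).symm
  rw [this]
  rfl

/-- `act` fixes the monomials in the fixed variables -/
theorem act_fix (w : Matrix (Fin d) (Fin d) (ZMod 2)) (q : Fin d)
    (hw : ∀ i, i ≠ q → act d w (X i) = X i) (s : Fin d → ℕ) (hs : s q = 0) :
    act d w (∏ i, X i ^ s i) = ∏ i, X i ^ s i := by
  rw [map_prod]
  refine Finset.prod_congr rfl fun i _ => ?_
  rw [map_pow]
  by_cases h : i = q
  · rw [h, hs, pow_zero, pow_zero]
  · rw [hw i h]

theorem half_ep (t : Fin d →₀ ℕ) : half d (monomial (ep t) 1) = 0 ∨ half d (monomial (ep t) 1) = 1 := by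
  rw [half_mon]
  split_ifs with h
  · right
    have : (ep t).mapRange (fun m => (m - 1) / 2) (by norm_num) = 0 := by
      ext i
      rw [Finsupp.mapRange_apply, ep_apply]
      simp only [Finsupp.coe_zero, Pi.zero_apply]
      omega
    rw [this]
    rfl
  · left; rfl

theorem act_half (w : Matrix (Fin d) (Fin d) (ZMod 2)) (hw : w.det ≠ 0) :
    ∀ f : Pol d, half d (act d w f) = act d w (half d f) := by
  refine Matrix.diagonal_transvection_induction_of_det_ne_zero
    (fun w => ∀ f : Pol d, half d (act d w f) = act d w (half d f)) w hw ?_ ?_ ?_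
  · intro D hD f
    rw [Matrix.det_diagonal, Finset.prod_ne_zero_iff] at hD
    have h1 : ∀ i, D i = 1 := by
      intro i
      rcases zmod2 (D i) with h | h
      · exact absurd h (hD i (Finset.mem_univ i))
      · exact h
    have h3 : act d (Matrix.diagonal D) = AlgHom.id _ _ := by
      apply MvPolynomial.algHom_ext
      intro k
      rw [act_X]
      unfold tr
      rw [Finset.sum_eq_single k]
      · rw [Matrix.diagonal_apply_eq, h1, C_1, one_mul]; rfl
      · intro i _ hi
        rw [Matrix.diagonal_apply_ne _ hi, C_0, zero_mul]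
      · intro h; exact absurd (Finset.mem_univ k) h
    rw [h3]
    rfl
  · intro t f
    obtain ⟨p, q, hpq, c⟩ := t
    have hT : ∀ i k, (Matrix.TransvectionStruct.toMatrix ⟨p, q, hpq, c⟩ : Matrix (Fin d) (Fin d) (ZMod 2)) i k =
        (if i = k then 1 else 0) + (if p = i ∧ q = k then c else 0) := by
      intro i k
      rw [Matrix.TransvectionStruct.toMatrix, Matrix.transvection, Matrix.add_apply, Matrix.one_apply,
        Matrix.single_apply]
    have htr : ∀ k, act d (Matrix.TransvectionStruct.toMatrix ⟨p, q, hpq, c⟩) (X k) =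
        (X k : Pol d) + (if q = k then C c * X p else 0) := by
      intro k
      rw [act_X]
      unfold tr
      simp only [hT, map_add, add_mul, Finset.sum_add_distrib]
      congr 1
      · rw [Finset.sum_eq_single k]
        · simp
        · intro i _ hi
          simp [hi]
        · intro h; exact absurd (Finset.mem_univ k) h
      · rw [Finset.sum_eq_single p]
        · by_cases h : q = k
          · simp [h]
          · simp [h]
        · intro i _ hi
          simp [Ne.symm hi]
        · intro h; exact absurd (Finset.mem_univ p) h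
    generalize Matrix.TransvectionStruct.toMatrix ⟨p, q, hpq, c⟩ = w at htr hT ⊢
    have hfix : ∀ i, i ≠ q → act d w (X i) = (X i : Pol d) := by
      intro i hi
      rw [htr, if_neg (Ne.symm hi), add_zero]
    have hq : act d w (X q) = (X q : Pol d) + C c * X p := by
      rw [htr, if_pos rfl]
    have heps : ∀ t : Fin d →₀ ℕ, half d (act d w (monomial (ep t) 1)) = half d (monomial (ep t) 1) := by
      intro t
      rw [mon_eq]
      have h2 : ep t q = 0 ∨ ep t q = 1 := by
        rw [ep_apply]; omega
      rcases h2 with h2 | h2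
      · rw [act_fix w q hfix _ h2]
      · have h3 : (∏ i, (X i : Pol d) ^ (ep t i)) = X q * ∏ i, X i ^ (Function.update (⇑(ep t)) q 0 i) := by
          rw [← Finset.mul_prod_erase _ _ (Finset.mem_univ q),
            ← Finset.mul_prod_erase Finset.univ (fun i => (X i : Pol d) ^ (Function.update (⇑(ep t)) q 0 i)) (Finset.mem_univ q),
            h2, pow_one, Function.update_self, pow_zero, one_mul]
          congr 1
          refine Finset.prod_congr rfl fun i hi => ?_
          rw [Function.update_of_ne (Finset.ne_of_mem_erase hi)]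
        rw [h3, map_mul, act_fix w q hfix _ (by simp), hq, add_mul, map_add]
        have h4 : half d (C c * X p * ∏ i, X i ^ (Function.update (⇑(ep t)) q 0 i)) = 0 := by
          have h5 : (X p * ∏ i, (X i : Pol d) ^ (Function.update (⇑(ep t)) q 0 i)) =
              ∏ i, X i ^ ((Function.update (⇑(ep t)) q 0 i) + if i = p then 1 else 0) := by
            simp_rw [pow_add]
            rw [Finset.prod_mul_distrib, mul_comm]
            congr 1
            rw [Finset.prod_eq_single p]
            · simp
            · intro i _ hi; simp [hi]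
            · intro h; exact absurd (Finset.mem_univ p) h
          rw [mul_assoc, h5, ← smul_eq_C_mul, map_smul, half_mon', smul_zero]
          exact ⟨q, by simp [Ne.symm hpq]⟩
        rw [h4, add_zero]
    have : (half d).comp (act d w).toLinearMap = (act d w).toLinearMap.comp (half d) := by
      apply lin_ext
      intro t
      show half d (act d w (monomial t 1)) = act d w (half d (monomial t 1))
      rw [mon_split t, half_sq_mul, map_mul, map_pow, half_sq_mul, map_mul, heps]
      rcases half_ep t with h | h
      · rw [h, map_zero]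
      · rw [h, map_one (act d w)]
    exact congrArg (fun L : Pol d →ₗ[ZMod 2] Pol d => L f) this
  · intro A B _ _ hA hB f
    rw [act_mul, hA, hB, ← act_mul]

/-- The right action of `w ∈ GL_d(𝔽₂)` on `PH_n`: `z ↦ z ∘ w`. -/
noncomputable def gact (d n : ℕ) (w : GL (Fin d) (ZMod 2)) : PH d n →ₗ[ZMod 2] PH d n where
  toFun z := ⟨z.1.comp (act d w.val).toLinearMap, act_mem w.val z.2⟩
  map_add' _ _ := rfl
  map_smul' _ _ := rfl

/-- Kameko's map `PH_n → PH_{d+2n}`, `z ↦ z ∘ half`. It sends the element dual to the monomial `x^s`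
to the element dual to the monomial `x^(2s+1)`. -/
noncomputable def kameko (d n : ℕ) : PH d n →ₗ[ZMod 2] PH d (d + 2 * n) where
  toFun z := ⟨z.1.comp (half d), half_mem z.2⟩
  map_add' _ _ := rfl
  map_smul' _ _ := rfl

/-- The span of the elements `z w - z`, `z ∈ PH_n`, `w ∈ GL_d(𝔽₂)`; the quotient of `PH_n` by it is
the space of coinvariants `𝔽₂ ⊗_{GL_d} PH_n`. -/
noncomputable def coinvRel (d n : ℕ) : Submodule (ZMod 2) (PH d n) :=
  Submodule.span (ZMod 2) {y | ∃ (z : PH d n) (w : GL (Fin d) (ZMod 2)), y = gact d n w z - z}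

theorem det_ne (w : GL (Fin d) (ZMod 2)) : (w.val : Matrix (Fin d) (Fin d) (ZMod 2)).det ≠ 0 := by
  have := (Matrix.isUnit_iff_isUnit_det _).1 w.isUnit
  exact this.ne_zero

theorem kameko_gact (n : ℕ) (w : GL (Fin d) (ZMod 2)) (z : PH d n) :
    kameko d n (gact d n w z) = gact d (d + 2 * n) w (kameko d n z) := by
  apply Subtype.ext
  apply LinearMap.ext
  intro f
  show z.1 (act d w.val (half d f)) = z.1 (half d (act d w.val f))
  rw [act_half w.val (det_ne w)]

theorem kameko_rel (d n : ℕ) : coinvRel d n ≤ (coinvRel d (d + 2 * n)).comap (kameko d n) := by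
  unfold coinvRel
  rw [Submodule.span_le]
  rintro _ ⟨z, w, rfl⟩
  rw [SetLike.mem_coe, Submodule.mem_comap]
  have h : kameko d n (gact d n w z - z) = gact d (d + 2 * n) w (kameko d n z) - kameko d n z := by
    rw [← kameko_gact]
    exact (kameko d n).map_sub _ _
  rw [h]
  exact Submodule.subset_span ⟨_, w, rfl⟩

/-- Kameko's squaring operation `𝔽₂ ⊗_{GL_d} PH_n → 𝔽₂ ⊗_{GL_d} PH_{d+2n}`, the map induced by
Kameko's map on the coinvariants. -/
noncomputable def squaring (d n : ℕ) :
    (PH d n ⧸ coinvRel d n) →ₗ[ZMod 2] (PH d (d + 2 * n) ⧸ coinvRel d (d + 2 * n)) :=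
  Submodule.mapQ _ _ (kameko d n) (kameko_rel d n)

end Pool.Agent.R793.Kameko
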