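import Pool.Agent.R793.KamekoGL

/-! Coefficient functionals, their primitivity, and Kameko's map. -/

set_option autoImplicit false

namespace Pool.Agent.R793.Kameko

open MvPolynomial

variable {d : ℕ}

theorem choose_even : ∀ (m t r : ℕ), t + r = 2 ^ m - 1 → 0 < r → t.choose r % 2 = 0 := by
  intro m
  induction m with
  | zero => intro t r h hr; simp at h; omega
  | succ m ih =>
    intro t r h hr
    have hp : 0 < 2 ^ m := by positivity
    have h1 : t.choose r ≡ (t % 2).choose (r % 2) * (t / 2).choose (r / 2) [MOD 2] :=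
      Choose.choose_modEq_choose_mod_mul_choose_div_nat
    rw [Nat.ModEq] at h1
    rw [h1]
    rw [pow_succ] at h
    rcases Nat.mod_two_eq_zero_or_one r with h2 | h2
    · have h3 : (t / 2).choose (r / 2) % 2 = 0 := ih _ _ (by omega) (by omega)
      rw [Nat.mul_mod, h3, mul_zero, Nat.zero_mod]
    · have h3 : t % 2 = 0 := by omega
      rw [h2, h3]
      simp

/-- the coefficient functional -/
noncomputable def zc (s : Fin d → ℕ) : Module.Dual (ZMod 2) (Pol d) :=
  lcoeff (ZMod 2) (Finsupp.equivFunOnFinite.symm s)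

theorem zc_mon (s : Fin d → ℕ) (t : Fin d →₀ ℕ) :
    zc s (monomial t 1) = if (⇑t = s) then 1 else 0 := by
  classical
  unfold zc
  rw [lcoeff_apply, coeff_monomial]
  refine if_congr ?_ rfl rfl
  constructor
  · rintro rfl; rfl
  · rintro rfl; simp

theorem zc_mon' (s t : Fin d → ℕ) :
    zc s (∏ i, X i ^ t i) = if t = s then 1 else 0 := by
  have : (∏ i, (X i : Pol d) ^ t i) = monomial (Finsupp.equivFunOnFinite.symm t) 1 := by
    rw [monomial_eq, C_1, one_mul, Finsupp.prod_fintype _ _ (fun i => pow_zero _)]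
    rfl
  rw [this, zc_mon]
  rfl

theorem mon_eq (t : Fin d →₀ ℕ) : (monomial t 1 : Pol d) = ∏ i, X i ^ t i := by
  rw [monomial_eq, C_1, one_mul, Finsupp.prod_fintype _ _ (fun i => pow_zero _)]

theorem lin_pow_expand {a : Pol d} (ha : Lin a) (n : ℕ) :
    totalSq d (a ^ n) = ∑ r ∈ Finset.range (n + 1),
      Polynomial.C ((n.choose r : Pol d) * a ^ (n + r)) * Polynomial.X ^ r := by
  rw [map_pow, ha, add_comm, add_pow]
  refine Finset.sum_congr rfl fun r hr => ?_
  have hr' : r ≤ n := Nat.lt_succ_iff.1 (Finset.mem_range.1 hr)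
  rw [mul_pow, ← map_pow, ← map_pow, map_mul, ← Polynomial.C_eq_natCast]
  have : a ^ (n + r) = (a ^ 2) ^ r * a ^ (n - r) := by
    rw [← pow_mul, ← pow_add]; congr 1; omega
  rw [this, map_mul]
  ring

theorem sq_mon (k : ℕ) (t : Fin d →₀ ℕ) :
    Sq d k (monomial t 1) = ∑ κ ∈ Fintype.piFinset (fun i : Fin d => Finset.range (t i + 1)),
      if ∑ i, κ i = k then (∏ i, ((t i).choose (κ i) : Pol d)) * ∏ i, X i ^ (t i + κ i) else 0 := by
  unfold Sq
  rw [mon_eq, map_prod]
  have h1 : ∀ i : Fin d, totalSq d ((X i : Pol d) ^ t i) = ∑ r ∈ Finset.range (t i + 1),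
      Polynomial.C (((t i).choose r : Pol d) * X i ^ (t i + r)) * Polynomial.X ^ r :=
    fun i => lin_pow_expand (lin_X i) _
  simp_rw [h1]
  rw [Finset.prod_univ_sum, Polynomial.finsetSum_coeff]
  refine Finset.sum_congr rfl fun κ _ => ?_
  rw [Finset.prod_mul_distrib, Finset.prod_pow_eq_pow_sum, ← map_prod, Polynomial.coeff_C_mul,
    Polynomial.coeff_X_pow, Finset.prod_mul_distrib]
  by_cases h : ∑ i, κ i = k
  · rw [if_pos h, if_pos h.symm, mul_one]
  · rw [if_neg h, if_neg (Ne.symm h), mul_zero]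

theorem lin_ext {M : Type} [AddCommGroup M] [Module (ZMod 2) M] (L1 L2 : Pol d →ₗ[ZMod 2] M)
    (h : ∀ t : Fin d →₀ ℕ, L1 (monomial t 1) = L2 (monomial t 1)) : L1 = L2 := by
  apply (basisMonomials (Fin d) (ZMod 2)).ext
  intro t
  rw [coe_basisMonomials]
  exact h t

/-- `Sq^k` as a linear map -/
noncomputable def SqL (d k : ℕ) : Pol d →ₗ[ZMod 2] Pol d :=
  ((Polynomial.lcoeff (Pol d) k).restrictScalars (ZMod 2)).comp (totalSq d).toLinearMap

theorem SqL_apply (k : ℕ) (f : Pol d) : SqL d k f = Sq d k f := rfl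

theorem zc_sq (s : Fin d → ℕ) (hs : ∀ i, ∃ m, s i = 2 ^ m - 1) (k : ℕ) (hk : 0 < k) (f : Pol d) :
    zc s (Sq d k f) = 0 := by
  have : (zc s).comp (SqL d k) = 0 := by
    apply lin_ext
    intro t
    rw [LinearMap.comp_apply, SqL_apply, LinearMap.zero_apply, sq_mon, map_sum]
    refine Finset.sum_eq_zero fun κ hκ => ?_
    split_ifs with h
    · have h2 : ∃ i, 0 < κ i := by
        by_contra hcon
        push Not at hcon
        have : ∑ i, κ i = 0 := Finset.sum_eq_zero fun i _ => by have := hcon i; omega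
        omega
      obtain ⟨i, hi⟩ := h2
      by_cases h3 : (fun i => t i + κ i) = s
      · obtain ⟨m, hm⟩ := hs i
        have h4 : t i + κ i = 2 ^ m - 1 := by rw [← hm, ← h3]
        have h5 := choose_even m _ _ h4 hi
        have h6 : (((t i).choose (κ i) : ℕ) : Pol d) = 0 := by
          rw [CharP.cast_eq_zero_iff (Pol d) 2]
          exact Nat.dvd_of_mod_eq_zero h5
        rw [Finset.prod_eq_zero (Finset.mem_univ i) h6, zero_mul, map_zero]
      · rw [← Nat.cast_prod, ← nsmul_eq_mul, map_nsmul, zc_mon', if_neg h3, smul_zero]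
    · exact map_zero _
  exact congrArg (fun L : Pol d →ₗ[ZMod 2] ZMod 2 => L f) this

theorem zc_mem (s : Fin d → ℕ) (hs : ∀ i, ∃ m, s i = 2 ^ m - 1) (n : ℕ) (hn : ∑ i, s i = n) :
    zc s ∈ PH d n := by
  refine mem_PH.2 ⟨mem_H.2 fun t ht => ?_, fun k hk f => zc_sq s hs k hk f⟩
  rw [zc_mon, if_neg]
  rintro rfl
  apply ht
  rw [← hn, Finsupp.degree_eq_sum]

theorem PH_hit {n : ℕ} {z : Module.Dual (ZMod 2) (Pol d)} (hz : z ∈ PH d n) {f : Pol d}
    (hf : f ∈ Hit d) : z f = 0 := by
  unfold Hit at hf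
  induction hf using Submodule.span_induction with
  | mem x hx =>
    obtain ⟨k, g, hk, rfl⟩ := hx
    exact (mem_PH.1 hz).2 k hk g
  | zero => exact map_zero z
  | add x y _ _ hx hy => rw [map_add, hx, hy, add_zero]
  | smul c x _ hx => rw [map_smul, hx, smul_zero]

end Pool.Agent.R793.Kameko
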