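import Mathlib
import Pool.Agent.R825.MK.Stmts

/-!
# Many pairwise good levels (`St_B`)
-/

set_option autoImplicit false

open Finset

namespace Pool.Agent.R793.MKB
open Pool.Agent.R825.MK

lemma card_le_of_diam (S : Finset ℤ) (B : ℝ) (hB : 0 ≤ B)
    (h : ∀ x ∈ S, ∀ y ∈ S, (y : ℝ) - x ≤ B) : (S.card : ℝ) ≤ B + 1 := by
  rcases S.eq_empty_or_nonempty with rfl | hS
  · simp; linarith
  · have h1 : S ⊆ Finset.Icc (S.min' hS) (S.max' hS) := by
      intro x hx
      rw [Finset.mem_Icc]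
      exact ⟨S.min'_le x hx, S.le_max' x hx⟩
    have h2 := Finset.card_le_card h1
    rw [Int.card_Icc] at h2
    have h3 := h _ (S.min'_mem hS) _ (S.max'_mem hS)
    have h4 : S.min' hS ≤ S.max' hS := S.min'_le _ (S.max'_mem hS)
    have h5 : ((S.max' hS + 1 - S.min' hS).toNat : ℤ) = S.max' hS + 1 - S.min' hS :=
      Int.toNat_of_nonneg (by omega)
    have h6 : (S.card : ℝ) ≤ ((S.max' hS + 1 - S.min' hS).toNat : ℝ) := by exact_mod_cast h2
    have h7 : ((S.max' hS + 1 - S.min' hS).toNat : ℝ) = (S.max' hS : ℝ) + 1 - S.min' hS := by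
      exact_mod_cast h5
    linarith

lemma card_le_of_diam_nat (S : Finset ℕ) (B : ℝ) (hB : 0 ≤ B)
    (h : ∀ x ∈ S, ∀ y ∈ S, (y : ℝ) - x ≤ B) : (S.card : ℝ) ≤ B + 1 := by
  have h1 : (S.image (Nat.cast : ℕ → ℤ)).card = S.card :=
    Finset.card_image_of_injective _ Nat.cast_injective
  rw [← h1]
  apply card_le_of_diam _ _ hB
  intro x hx y hy
  rw [Finset.mem_image] at hx hy
  obtain ⟨a, ha, rfl⟩ := hx
  obtain ⟨b, hb, rfl⟩ := hy
  have := h a ha b hb
  push_cast
  exact this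

lemma log_two_bounds : 1 / 2 < Real.log 2 ∧ Real.log 2 < 1 := by
  constructor
  · have := Real.log_two_gt_d9; linarith
  · have := Real.log_two_lt_d9; linarith

open Classical in
lemma J_card (η lam : ℝ) (hl : 0 < lam) (r h : ℕ) (hh : 1 ≤ h) (hM : h < 2 ^ r) (ε : ℝ)
    (hε : 0 < ε) (hε1 : ε ≤ 1) :
    (((range (2 ^ r)).filter (fun j => Bad η lam ε r (j + h) j)).card : ℝ) ≤
      (2 * ε * 4 ^ r / h + 1) * (4 / lam + 1) := by
  obtain ⟨hc1, hc2⟩ := log_two_bounds
  set c : ℝ := Real.log 2 with hc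
  set J := (range (2 ^ r)).filter (fun j => Bad η lam ε r (j + h) j) with hJ
  have h4 : (0 : ℝ) < 4 ^ r := by positivity
  have hhr : (0 : ℝ) < h := by exact_mod_cast hh
  have hex : ∀ j : ℕ, ∃ m : ℤ, j ∈ J →
      |c * (2 * j * h + h ^ 2) / 4 ^ r + h * η - m * lam| < ε := by
    intro j
    by_cases hj : j ∈ J
    · rw [hJ, Finset.mem_filter] at hj
      obtain ⟨m, hm⟩ := hj.2
      refine ⟨m, fun _ => ?_⟩
      have : c * (2 * (j : ℝ) * h + (h : ℝ) ^ 2) / 4 ^ r + h * η - m * lam =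
          Real.log 2 * (((((j + h : ℕ) : ℝ)) ^ 2 - (j : ℝ) ^ 2) / 4 ^ r) +
            (((j + h : ℕ) : ℝ) - j) * η - m * lam := by
        push_cast
        rw [← hc]
        ring
      rw [this]
      exact hm
    · exact ⟨0, fun h => absurd h hj⟩
  choose m hm using hex
  -- the fibers
  have hfib : ∀ a ∈ J.image m, (J.filter (fun j => m j = a)).card ≤ ⌊2 * ε * 4 ^ r / h + 1⌋₊ := by
    intro a ha
    apply Nat.le_floor
    apply card_le_of_diam_nat
    · positivity
    · intro x hx y hy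
      rw [Finset.mem_filter] at hx hy
      have e1 := hm x hx.1
      have e2 := hm y hy.1
      rw [hx.2] at e1
      rw [hy.2] at e2
      rw [abs_lt] at e1 e2
      have e3 : c * (2 * (y : ℝ) * h + (h : ℝ) ^ 2) / 4 ^ r - c * (2 * (x : ℝ) * h + (h : ℝ) ^ 2) / 4 ^ r < 2 * ε := by
        linarith [e1.1, e1.2, e2.1, e2.2]
      have e4 : c * (2 * (y : ℝ) * h + (h : ℝ) ^ 2) / 4 ^ r - c * (2 * (x : ℝ) * h + (h : ℝ) ^ 2) / 4 ^ r =
          2 * c * h * (y - x) / 4 ^ r := by ring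
      rw [e4, div_lt_iff₀ h4] at e3
      rw [le_div_iff₀ hhr]
      by_cases hyx : (y : ℝ) - x ≤ 0
      · have : ((y : ℝ) - x) * h ≤ 0 := mul_nonpos_of_nonpos_of_nonneg hyx hhr.le
        have : 0 ≤ 2 * ε * 4 ^ r := by positivity
        linarith
      · push Not at hyx
        have : 0 < ((y : ℝ) - x) * h := mul_pos hyx hhr
        nlinarith
  have himg : ((J.image m).card : ℝ) ≤ 4 / lam + 1 := by
    apply card_le_of_diam
    · positivity
    · intro x hx y hy
      rw [Finset.mem_image] at hx hy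
      obtain ⟨a, ha, rfl⟩ := hx
      obtain ⟨b, hb, rfl⟩ := hy
      have e1 := hm a ha
      have e2 := hm b hb
      rw [abs_lt] at e1 e2
      rw [le_div_iff₀ hl]
      have e4 : c * (2 * (b : ℝ) * h + (h : ℝ) ^ 2) / 4 ^ r - c * (2 * (a : ℝ) * h + (h : ℝ) ^ 2) / 4 ^ r =
          2 * c * (h * (b - a) / 4 ^ r) := by ring
      have e5 : (h : ℝ) * (b - a) / 4 ^ r ≤ 1 := by
        rw [div_le_one h4]
        have hb' : (b : ℝ) ≤ 2 ^ r := by
          have : b < 2 ^ r := by
            have := (Finset.mem_filter.mp hb).1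
            exact Finset.mem_range.mp this
          exact_mod_cast this.le
        have hh' : (h : ℝ) ≤ 2 ^ r := by exact_mod_cast hM.le
        have ha' : (0 : ℝ) ≤ a := Nat.cast_nonneg a
        have : (4 : ℝ) ^ r = 2 ^ r * 2 ^ r := by
          rw [← mul_pow]; norm_num
        rw [this]
        calc (h : ℝ) * (b - a) ≤ h * 2 ^ r := by
              apply mul_le_mul_of_nonneg_left _ hhr.le
              linarith
          _ ≤ 2 ^ r * 2 ^ r := by
              apply mul_le_mul_of_nonneg_right hh'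
              positivity
      have e6 : 2 * c * (h * (b - a) / 4 ^ r) ≤ 2 := by
        have : 2 * c * (h * (b - a) / 4 ^ r) ≤ 2 * c * 1 :=
          mul_le_mul_of_nonneg_left e5 (by linarith)
        linarith
      have : ((m b : ℝ) - m a) * lam = m b * lam - m a * lam := by ring
      rw [this]
      linarith [e1.1, e1.2, e2.1, e2.2]
  have h1 := Finset.card_le_mul_card_image J _ hfib
  have h2 : (J.card : ℝ) ≤ (⌊2 * ε * 4 ^ r / h + 1⌋₊ : ℝ) * ((J.image m).card : ℝ) := by
    exact_mod_cast h1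
  have h3 : (⌊2 * ε * 4 ^ r / h + 1⌋₊ : ℝ) ≤ 2 * ε * 4 ^ r / h + 1 :=
    Nat.floor_le (by positivity)
  calc (J.card : ℝ) ≤ (⌊2 * ε * 4 ^ r / h + 1⌋₊ : ℝ) * ((J.image m).card : ℝ) := h2
    _ ≤ (2 * ε * 4 ^ r / h + 1) * (4 / lam + 1) := by
      apply mul_le_mul h3 himg (by positivity) (by positivity)

lemma bad_symm {η lam ε : ℝ} {r j j' : ℕ} (h : Bad η lam ε r j j') : Bad η lam ε r j' j := by
  obtain ⟨m, hm⟩ := h
  refine ⟨-m, ?_⟩
  rw [← abs_neg]
  have : -(Real.log 2 * (((j' : ℝ) ^ 2 - (j : ℝ) ^ 2) / 4 ^ r) + ((j' : ℝ) - j) * η - ((-m : ℤ) : ℝ) * lam)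
      = Real.log 2 * (((j : ℝ) ^ 2 - (j' : ℝ) ^ 2) / 4 ^ r) + ((j : ℝ) - j') * η - m * lam := by
    push_cast
    ring
  rw [this]
  exact hm

open Classical in
/-- independent sets in graphs with small degrees -/
lemma indep (R : ℕ → ℕ → Prop) (hs : ∀ x y, R x y → R y x) (Δ : ℕ) : ∀ n : ℕ, ∀ U : Finset ℕ,
    U.card ≤ n → (∀ x ∈ U, (U.filter (fun y => y ≠ x ∧ R x y)).card ≤ Δ) →
    ∃ S ⊆ U, (∀ x ∈ S, ∀ y ∈ S, x ≠ y → ¬ R x y) ∧ U.card ≤ S.card * (Δ + 1) := by
  intro n
  induction n with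
  | zero =>
    intro U hU _
    have : U = ∅ := Finset.card_eq_zero.mp (by omega)
    subst this
    exact ⟨∅, by simp, by simp, by simp⟩
  | succ n ih =>
    intro U hU hd
    rcases U.eq_empty_or_nonempty with rfl | ⟨x, hx⟩
    · exact ⟨∅, by simp, by simp, by simp⟩
    · set N := U.filter (fun y => y ≠ x ∧ R x y) with hN
      set V := U.filter (fun y => ¬ (y = x ∨ R x y)) with hV
      have hVU : V ⊆ U := Finset.filter_subset _ _
      have hxV : x ∉ V := by simp [hV]
      have hVc : V.card < U.card := Finset.card_lt_card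
        ⟨hVU, fun h => hxV (h hx)⟩
      have hUc : U.card ≤ V.card + (Δ + 1) := by
        have h1 : U ⊆ V ∪ (insert x N) := by
          intro y hy
          rw [Finset.mem_union, Finset.mem_insert, hV, hN, Finset.mem_filter, Finset.mem_filter]
          by_cases h1 : y = x
          · right; left; exact h1
          · by_cases h2 : R x y
            · right; right; exact ⟨hy, h1, h2⟩
            · left; exact ⟨hy, by tauto⟩
        have h2 := Finset.card_le_card h1
        have h3 := Finset.card_union_le V (insert x N)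
        have h4 := Finset.card_insert_le x N
        have h5 : N.card ≤ Δ := by
          refine le_trans (le_of_eq ?_) (hd x hx)
          congr
        omega
      obtain ⟨S, hSV, hS, hSc⟩ := ih V (by omega) (by
        intro y hy
        refine le_trans (Finset.card_le_card ?_) (hd y (hVU hy))
        exact Finset.filter_subset_filter _ hVU)
      have hxS : x ∉ S := fun h => hxV (hSV h)
      refine ⟨insert x S, ?_, ?_, ?_⟩
      · intro y hy
        rw [Finset.mem_insert] at hy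
        rcases hy with rfl | hy
        · exact hx
        · exact hVU (hSV hy)
      · intro a ha b hb hab
        rw [Finset.mem_insert] at ha hb
        have hV' : ∀ z ∈ S, ¬ R x z := by
          intro z hz hR
          have := hSV hz
          rw [hV, Finset.mem_filter] at this
          exact this.2 (Or.inr hR)
        rcases ha with rfl | ha
        · rcases hb with rfl | hb
          · exact absurd rfl hab
          · exact hV' b hb
        · rcases hb with rfl | hb
          · intro h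
            exact hV' a ha (hs _ _ h)
          · exact hS a ha b hb hab
      · rw [Finset.card_insert_of_notMem hxS]
        calc U.card ≤ V.card + (Δ + 1) := hUc
          _ ≤ S.card * (Δ + 1) + (Δ + 1) := by omega
          _ = (S.card + 1) * (Δ + 1) := by ring

open Classical in
lemma indep_avg (R : ℕ → ℕ → Prop) (hs : ∀ x y, R x y → R y x) (Δ : ℕ) (U : Finset ℕ)
    (hD : 2 * ∑ x ∈ U, (U.filter (fun y => y ≠ x ∧ R x y)).card ≤ Δ * U.card) :
    ∃ S ⊆ U, (∀ x ∈ S, ∀ y ∈ S, x ≠ y → ¬ R x y) ∧ U.card ≤ 2 * (S.card * (Δ + 1)) := by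
  set V := U.filter (fun x => (U.filter (fun y => y ≠ x ∧ R x y)).card ≤ Δ) with hV
  set W := U.filter (fun x => ¬ (U.filter (fun y => y ≠ x ∧ R x y)).card ≤ Δ) with hW
  have hVW : V.card + W.card = U.card := Finset.card_filter_add_card_filter_not _
  have hVU : V ⊆ U := Finset.filter_subset _ _
  have hWU : W ⊆ U := Finset.filter_subset _ _
  have h1 : W.card * (Δ + 1) ≤ ∑ x ∈ U, (U.filter (fun y => y ≠ x ∧ R x y)).card := by
    calc W.card * (Δ + 1) = ∑ x ∈ W, (Δ + 1) := by simp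
      _ ≤ ∑ x ∈ W, (U.filter (fun y => y ≠ x ∧ R x y)).card := by
          apply Finset.sum_le_sum
          intro x hx
          have := (Finset.mem_filter.mp hx).2
          omega
      _ ≤ ∑ x ∈ U, (U.filter (fun y => y ≠ x ∧ R x y)).card :=
          Finset.sum_le_sum_of_subset hWU
  have h2 : 2 * W.card ≤ U.card := by
    have h3 : (2 * W.card) * (Δ + 1) ≤ U.card * (Δ + 1) := by nlinarith
    exact Nat.le_of_mul_le_mul_right h3 (Nat.succ_pos _)
  obtain ⟨S, hSV, hS, hSc⟩ := indep R hs Δ V.card V le_rfl (by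
    intro x hx
    have h3 := (Finset.mem_filter.mp hx).2
    exact le_trans (Finset.card_le_card (Finset.filter_subset_filter _ hVU)) h3)
  exact ⟨S, hSV.trans hVU, hS, by omega⟩

open Classical in
lemma degree_sum (η lam ε : ℝ) (r : ℕ) (U : Finset ℕ) (hU : ∀ j ∈ U, j < 2 ^ r) :
    ∑ x ∈ U, (U.filter (fun y => y ≠ x ∧ Bad η lam ε r x y)).card ≤
      2 * ∑ h ∈ Ico 1 (2 ^ r), ((range (2 ^ r)).filter (fun j => Bad η lam ε r (j + h) j)).card := by
  set P : Finset (Σ _ : ℕ, ℕ) := U.sigma (fun x => U.filter (fun y => y ≠ x ∧ Bad η lam ε r x y)) with hP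
  set T : Finset (Σ _ : ℕ, ℕ) := (Ico 1 (2 ^ r)).sigma
    (fun h => (range (2 ^ r)).filter (fun j => Bad η lam ε r (j + h) j)) with hT
  have hPc : P.card = ∑ x ∈ U, (U.filter (fun y => y ≠ x ∧ Bad η lam ε r x y)).card :=
    Finset.card_sigma _ _
  have hTc : T.card = ∑ h ∈ Ico 1 (2 ^ r), ((range (2 ^ r)).filter
      (fun j => Bad η lam ε r (j + h) j)).card := Finset.card_sigma _ _
  rw [← hPc, ← hTc]
  have hsplit : (P.filter (fun p => p.1 < p.2)).card + (P.filter (fun p => ¬ p.1 < p.2)).card =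
    P.card := Finset.card_filter_add_card_filter_not _
  have h1 : (P.filter (fun p => p.1 < p.2)).card ≤ T.card := by
    apply Finset.card_le_card_of_injOn (fun p => (⟨p.2 - p.1, p.1⟩ : Σ _ : ℕ, ℕ))
    · intro p hp
      have hp := Finset.mem_coe.mp hp
      obtain ⟨hp1, hp2⟩ := Finset.mem_filter.mp hp
      obtain ⟨hp3, hp4⟩ := Finset.mem_sigma.mp hp1
      obtain ⟨hp5, hp6, hp7⟩ := Finset.mem_filter.mp hp4
      have l1 := hU _ hp3
      have l2 := hU _ hp5
      apply Finset.mem_coe.mpr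
      apply Finset.mem_sigma.mpr
      refine ⟨Finset.mem_Ico.mpr ⟨?_, ?_⟩, Finset.mem_filter.mpr ⟨Finset.mem_range.mpr l1, ?_⟩⟩
      · show 1 ≤ p.2 - p.1
        omega
      · show p.2 - p.1 < 2 ^ r
        omega
      · show Bad η lam ε r (p.1 + (p.2 - p.1)) p.1
        rw [Nat.add_sub_cancel' hp2.le]
        exact bad_symm hp7
    · intro p hp q hq hpq
      have hp := (Finset.mem_filter.mp (Finset.mem_coe.mp hp)).2
      have hq := (Finset.mem_filter.mp (Finset.mem_coe.mp hq)).2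
      simp only [Sigma.mk.injEq, heq_eq_eq] at hpq
      obtain ⟨a, b⟩ := p
      obtain ⟨a', b'⟩ := q
      simp only at hp hq hpq
      have e1 : a = a' := hpq.2
      have e2 : b = b' := by omega
      rw [e1, e2]
  have h2 : (P.filter (fun p => ¬ p.1 < p.2)).card ≤ T.card := by
    apply Finset.card_le_card_of_injOn (fun p => (⟨p.1 - p.2, p.2⟩ : Σ _ : ℕ, ℕ))
    · intro p hp
      have hp := Finset.mem_coe.mp hp
      obtain ⟨hp1, hp2⟩ := Finset.mem_filter.mp hp
      obtain ⟨hp3, hp4⟩ := Finset.mem_sigma.mp hp1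
      obtain ⟨hp5, hp6, hp7⟩ := Finset.mem_filter.mp hp4
      have l1 := hU _ hp3
      have l2 := hU _ hp5
      apply Finset.mem_coe.mpr
      apply Finset.mem_sigma.mpr
      refine ⟨Finset.mem_Ico.mpr ⟨?_, ?_⟩, Finset.mem_filter.mpr ⟨Finset.mem_range.mpr l2, ?_⟩⟩
      · show 1 ≤ p.1 - p.2
        omega
      · show p.1 - p.2 < 2 ^ r
        omega
      · show Bad η lam ε r (p.2 + (p.1 - p.2)) p.2
        rw [Nat.add_sub_cancel' (not_lt.mp hp2)]
        exact hp7
    · intro p hp q hq hpq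
      have hp := (Finset.mem_filter.mp (Finset.mem_coe.mp hp)).2
      have hq := (Finset.mem_filter.mp (Finset.mem_coe.mp hq)).2
      simp only [Sigma.mk.injEq, heq_eq_eq] at hpq
      obtain ⟨a, b⟩ := p
      obtain ⟨a', b'⟩ := q
      simp only at hp hq hpq
      have e1 : b = b' := hpq.2
      have e2 : a = a' := by omega
      rw [e1, e2]
  omega

lemma harm (r : ℕ) : ∑ h ∈ (Ico 1 (2 ^ r) : Finset ℕ), (1 : ℝ) / (h : ℝ) ≤ r := by
  induction r with
  | zero => simp
  | succ r ih =>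
    have h1 : 1 ≤ 2 ^ r := Nat.one_le_two_pow
    have h2 : 2 ^ r ≤ 2 ^ (r + 1) := Nat.pow_le_pow_right (by norm_num) (by omega)
    rw [← Finset.sum_Ico_consecutive _ h1 h2]
    have h3 : ∑ h ∈ (Ico (2 ^ r) (2 ^ (r + 1)) : Finset ℕ), (1 : ℝ) / (h : ℝ) ≤ 1 := by
      calc ∑ h ∈ (Ico (2 ^ r) (2 ^ (r + 1)) : Finset ℕ), (1 : ℝ) / (h : ℝ)
          ≤ ∑ _h ∈ (Ico (2 ^ r) (2 ^ (r + 1)) : Finset ℕ), (1 : ℝ) / (2 ^ r : ℝ) := by
            apply Finset.sum_le_sum
            intro h hh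
            have : 2 ^ r ≤ h := (Finset.mem_Ico.mp hh).1
            have h4 : (2 : ℝ) ^ r ≤ h := by exact_mod_cast this
            apply one_div_le_one_div_of_le (by positivity) h4
        _ = 1 := by
            rw [Finset.sum_const, Nat.card_Ico, nsmul_eq_mul]
            have : 2 ^ (r + 1) - 2 ^ r = 2 ^ r := by rw [pow_succ]; omega
            rw [this]
            push_cast
            field_simp
    push_cast
    linarith

lemma sq_le_three_two_pow (w : ℕ) : (w + 1) ^ 2 ≤ 3 * 2 ^ w := by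
  induction w with
  | zero => norm_num
  | succ w ih =>
    rcases Nat.lt_or_ge w 2 with h | h
    · interval_cases w <;> norm_num
    · have : (w + 1 + 1) ^ 2 ≤ 2 * (w + 1) ^ 2 := by nlinarith
      calc (w + 1 + 1) ^ 2 ≤ 2 * (w + 1) ^ 2 := this
        _ ≤ 2 * (3 * 2 ^ w) := by omega
        _ = 3 * 2 ^ (w + 1) := by ring

/-- MK-B -/
theorem B_ok : St_B := by
  classical
  intro η lam hl
  set C0 : ℝ := 7 * (4 / lam + 1) with hC0
  have hC0p : 0 < C0 := by positivity
  set K : ℕ := ⌈4 * C0⌉₊ with hK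
  have hKle : 4 * C0 ≤ K := Nat.le_ceil _
  refine ⟨(2 * (K + 1) + 3) ^ 2, ?_⟩
  intro r hr U hU hUc
  set w := Nat.sqrt r with hw
  have hw1 : 2 * (K + 1) + 3 ≤ w := by
    rw [hw, Nat.le_sqrt']
    exact hr
  have hw2 : w * w ≤ r := Nat.sqrt_le r
  have hw3 : r + 1 ≤ (w + 1) ^ 2 := Nat.lt_succ_sqrt' r
  have hw4 : 3 * w ≤ r := by nlinarith
  set ε : ℝ := ((2 : ℝ) ^ (r + w))⁻¹ with hε
  have hεp : 0 < ε := by positivity
  have hε1 : ε ≤ 1 := by
    rw [hε]
    apply inv_le_one_of_one_le₀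
    exact one_le_pow₀ (by norm_num)
  have hε4 : ε * 4 ^ r * 2 ^ w = 2 ^ r := by
    have : (4 : ℝ) ^ r = 2 ^ r * 2 ^ r := by rw [← mul_pow]; norm_num
    rw [this, hε, pow_add]
    field_simp
  -- bound of the number of bad pairs
  have hsum : ((∑ h ∈ Ico 1 (2 ^ r), ((range (2 ^ r)).filter
      (fun j => Bad η lam ε r (j + h) j)).card : ℕ) : ℝ) ≤ C0 * 2 ^ r := by
    push_cast
    calc ∑ h ∈ Ico 1 (2 ^ r), (((range (2 ^ r)).filter
        (fun j => Bad η lam ε r (j + h) j)).card : ℝ)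
        ≤ ∑ h ∈ (Ico 1 (2 ^ r) : Finset ℕ), (2 * ε * 4 ^ r / (h : ℝ) + 1) * (4 / lam + 1) := by
          apply Finset.sum_le_sum
          intro h hh
          obtain ⟨h1, h2⟩ := Finset.mem_Ico.mp hh
          exact J_card η lam hl r h h1 h2 ε hεp hε1
      _ = (4 / lam + 1) * (2 * (ε * 4 ^ r) * (∑ h ∈ (Ico 1 (2 ^ r) : Finset ℕ), (1 : ℝ) / (h : ℝ)) +
            ((2 ^ r - 1 : ℕ) : ℝ)) := by
          rw [← Finset.sum_mul, Finset.sum_add_distrib, Finset.mul_sum, mul_comm]
          congr 2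
          · apply Finset.sum_congr rfl
            intro h _
            ring
          · simp
      _ ≤ (4 / lam + 1) * (6 * 2 ^ r + 2 ^ r) := by
          apply mul_le_mul_of_nonneg_left _ (by positivity)
          have e1 := harm r
          have e2 : (r : ℝ) + 1 ≤ 3 * 2 ^ w := by
            exact_mod_cast hw3.trans (sq_le_three_two_pow w)
          have e3 : 0 < ε * 4 ^ r := by positivity
          have e4 : (ε * 4 ^ r) * (∑ h ∈ (Ico 1 (2 ^ r) : Finset ℕ), (1 : ℝ) / (h : ℝ)) ≤ 3 * 2 ^ r := by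
            calc (ε * 4 ^ r) * (∑ h ∈ (Ico 1 (2 ^ r) : Finset ℕ), (1 : ℝ) / (h : ℝ)) ≤ (ε * 4 ^ r) * (3 * 2 ^ w) := by
                  apply mul_le_mul_of_nonneg_left _ e3.le
                  linarith
              _ = 3 * (ε * 4 ^ r * 2 ^ w) := by ring
              _ = 3 * 2 ^ r := by rw [hε4]
          have e5 : ((2 ^ r - 1 : ℕ) : ℝ) ≤ 2 ^ r := by
            have : (2 ^ r - 1 : ℕ) ≤ 2 ^ r := Nat.sub_le _ _
            exact_mod_cast this
          linarith
      _ = C0 * 2 ^ r := by rw [hC0]; ring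
  have hdeg := degree_sum η lam ε r U hU
  have hpow : 2 ^ w * 2 ^ (r - w) = 2 ^ r := by
    rw [← pow_add]
    congr 1
    omega
  have hD : 2 * ∑ x ∈ U, (U.filter (fun y => y ≠ x ∧ Bad η lam ε r x y)).card ≤
      (K * 2 ^ w) * U.card := by
    have h1 : ((4 * ∑ h ∈ Ico 1 (2 ^ r), ((range (2 ^ r)).filter
      (fun j => Bad η lam ε r (j + h) j)).card : ℕ) : ℝ) ≤ ((K * 2 ^ r : ℕ) : ℝ) := by
      push_cast
      push_cast at hsum
      have : C0 * 2 ^ r * 4 ≤ K * 2 ^ r := by
        have := mul_le_mul_of_nonneg_right hKle (by positivity : (0 : ℝ) ≤ 2 ^ r)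
        linarith
      linarith
    have h2 : 4 * ∑ h ∈ Ico 1 (2 ^ r), ((range (2 ^ r)).filter
      (fun j => Bad η lam ε r (j + h) j)).card ≤ K * 2 ^ r := by exact_mod_cast h1
    calc 2 * ∑ x ∈ U, (U.filter (fun y => y ≠ x ∧ Bad η lam ε r x y)).card
        ≤ 4 * ∑ h ∈ Ico 1 (2 ^ r), ((range (2 ^ r)).filter
      (fun j => Bad η lam ε r (j + h) j)).card := by omega
      _ ≤ K * 2 ^ r := h2
      _ = (K * 2 ^ w) * 2 ^ (r - w) := by rw [← hpow]; ring
      _ ≤ (K * 2 ^ w) * U.card := Nat.mul_le_mul_left _ hUc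
  obtain ⟨S, hSU, hS, hSc⟩ := indep_avg (Bad η lam ε r) (fun x y h => bad_symm h) _ U hD
  have hcard : 2 ^ (r - 3 * w) ≤ S.card := by
    have h1 : 2 * (K + 1) ≤ 2 ^ w := by
      have : w < 2 ^ w := Nat.lt_two_pow_self
      omega
    have h2 : 2 * (K * 2 ^ w + 1) ≤ 2 ^ w * 2 ^ w := by
      have h3 : 1 ≤ 2 ^ w := Nat.one_le_two_pow
      nlinarith
    have h3 : 2 ^ (r - w) ≤ S.card * (2 ^ w * 2 ^ w) := by
      calc 2 ^ (r - w) ≤ U.card := hUc
        _ ≤ 2 * (S.card * (K * 2 ^ w + 1)) := hSc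
        _ = S.card * (2 * (K * 2 ^ w + 1)) := by ring
        _ ≤ S.card * (2 ^ w * 2 ^ w) := Nat.mul_le_mul_left _ h2
    have h4 : 2 ^ (r - w) = 2 ^ (r - 3 * w) * (2 ^ w * 2 ^ w) := by
      rw [← pow_add, ← pow_add]
      congr 1
      omega
    rw [h4] at h3
    exact Nat.le_of_mul_le_mul_right h3 (by positivity)
  have hcard2 : Fintype.card (Fin (bb r) → Fin 2) ≤ Fintype.card S := by
    rw [Fintype.card_coe, Fintype.card_fun, Fintype.card_fin, Fintype.card_fin]
    exact hcard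
  obtain ⟨e⟩ := Function.Embedding.nonempty_of_card_le hcard2
  refine ⟨fun b => (e b : ℕ), fun b => hSU (e b).2, ?_⟩
  intro b b' hbb
  apply hS _ (e b).2 _ (e b').2
  intro h
  exact hbb (e.injective (Subtype.ext h))

end Pool.Agent.R793.MKB
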