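import Pool.Agent.R978.UI.Stm

/-!
# Paths with few chords and private leaves (`StmtB4`)
-/

set_option autoImplicit false

namespace Pool.Agent.R793.UIB4

open Finset Pool.Agent.R980 R978UI
open scoped Classical

/-- index of `a` in `A` -/
noncomputable def idx {n : ℕ} (A : Finset (Fin n)) (a : Fin n) : ℕ := (A.filter (fun b => b < a)).card

lemma idx_lt {n : ℕ} {A : Finset (Fin n)} {a : Fin n} (ha : a ∈ A) : idx A a < A.card := by
  apply Finset.card_lt_card
  refine ⟨Finset.filter_subset _ _, fun h => ?_⟩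
  have := (Finset.mem_filter.mp (h ha)).2
  exact lt_irrefl _ this

lemma idx_lt_idx {n : ℕ} {A : Finset (Fin n)} {a b : Fin n} (ha : a ∈ A) (hab : a < b) :
    idx A a < idx A b := by
  apply Finset.card_lt_card
  refine ⟨fun c hc => ?_, fun h => ?_⟩
  · obtain ⟨h1, h2⟩ := Finset.mem_filter.mp hc
    exact Finset.mem_filter.mpr ⟨h1, h2.trans hab⟩
  · have := (Finset.mem_filter.mp (h (Finset.mem_filter.mpr ⟨ha, hab⟩))).2
    exact lt_irrefl _ this

lemma idx_inj {n : ℕ} {A : Finset (Fin n)} {a b : Fin n} (ha : a ∈ A) (hb : b ∈ A)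
    (h : idx A a = idx A b) : a = b := by
  rcases lt_trichotomy a b with h1 | h1 | h1
  · have := idx_lt_idx ha h1; omega
  · exact h1
  · have := idx_lt_idx hb h1; omega

/-- neighbours of `w` in `S` -/
noncomputable def NS {n : ℕ} (G : SimpleGraph (Fin n)) (S : Finset (Fin n)) (w : Fin n) :
    Finset (Fin n) := S.filter (fun y => G.Adj w y)

lemma mem_NS {n : ℕ} {G : SimpleGraph (Fin n)} {S : Finset (Fin n)} {w y : Fin n} :
    y ∈ NS G S w ↔ y ∈ S ∧ G.Adj w y := Finset.mem_filter

lemma iso_fun {n : ℕ} (G : SimpleGraph (Fin n)) (S T : Finset (Fin n)) (h : (isoSetoid G).r S T) :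
    ∃ f : Fin n → Fin n, (∀ a ∈ S, f a ∈ T) ∧ (∀ a ∈ S, ∀ b ∈ S, f a = f b → a = b) ∧
      (∀ b ∈ T, ∃ a ∈ S, f a = b) ∧ (∀ a ∈ S, ∀ b ∈ S, G.Adj (f a) (f b) ↔ G.Adj a b) := by
  obtain ⟨e⟩ := h
  have hval : ∀ (a : Fin n) (ha : a ∈ S), (fun a => if h : a ∈ S then (e ⟨a, h⟩ : Fin n) else a) a =
      (e ⟨a, ha⟩ : Fin n) := by
    intro a ha
    simp only [dif_pos ha]
  refine ⟨fun a => if h : a ∈ S then (e ⟨a, h⟩ : Fin n) else a, ?_, ?_, ?_, ?_⟩
  · intro a ha
    rw [hval a ha]
    exact Finset.mem_coe.mp (e ⟨a, ha⟩).2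
  · intro a ha b hb hab
    rw [hval a ha, hval b hb] at hab
    have h1 := e.injective (Subtype.ext hab)
    exact congrArg Subtype.val h1
  · intro b hb
    refine ⟨(e.symm ⟨b, hb⟩ : Fin n), Finset.mem_coe.mp (e.symm ⟨b, hb⟩).2, ?_⟩
    rw [hval _ (Finset.mem_coe.mp (e.symm ⟨b, hb⟩).2)]
    have : e ⟨(e.symm ⟨b, hb⟩ : Fin n), Finset.mem_coe.mp (e.symm ⟨b, hb⟩).2⟩ = ⟨b, hb⟩ :=
      e.apply_symm_apply _
    rw [this]
  · intro a ha b hb
    rw [hval a ha, hval b hb]
    have h1 := e.map_rel_iff (a := ⟨a, ha⟩) (b := ⟨b, hb⟩)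
    exact h1

lemma deg_eq {n : ℕ} {G : SimpleGraph (Fin n)} {S T : Finset (Fin n)} {f : Fin n → Fin n}
    (h1 : ∀ a ∈ S, f a ∈ T) (h2 : ∀ a ∈ S, ∀ b ∈ S, f a = f b → a = b)
    (h3 : ∀ b ∈ T, ∃ a ∈ S, f a = b) (h4 : ∀ a ∈ S, ∀ b ∈ S, G.Adj (f a) (f b) ↔ G.Adj a b)
    {a : Fin n} (ha : a ∈ S) : (NS G T (f a)).card = (NS G S a).card := by
  have : NS G T (f a) = (NS G S a).image f := by
    ext y
    rw [mem_NS, Finset.mem_image]
    constructor
    · rintro ⟨hy, hadj⟩
      obtain ⟨b, hb, rfl⟩ := h3 y hy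
      exact ⟨b, mem_NS.mpr ⟨hb, (h4 a ha b hb).mp hadj⟩, rfl⟩
    · rintro ⟨b, hb, rfl⟩
      obtain ⟨hb1, hb2⟩ := mem_NS.mp hb
      exact ⟨h1 b hb1, (h4 a ha b hb1).mpr hb2⟩
  rw [this, Finset.card_image_of_injOn]
  intro x hx y hy hxy
  exact h2 x (mem_NS.mp hx).1 y (mem_NS.mp hy).1 hxy

/-- the code of a sequence -/
noncomputable def code {n : ℕ} (G : SimpleGraph (Fin n)) (P : Finset (Fin n)) (s : ℕ)
    (v : ℕ → Fin n) (w : Fin n) : ℕ :=
  if h : ∃ j, 2 ≤ j ∧ j + 3 ≤ s ∧ v j = w then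
    idx ((NS G P w).erase (v (h.choose - 1))) (v (h.choose + 1)) else 0

lemma code_eq {n : ℕ} {G : SimpleGraph (Fin n)} {P : Finset (Fin n)} {s : ℕ}
    {v : ℕ → Fin n} (hv : ∀ i < s, ∀ j < s, v i = v j → i = j) {j : ℕ} (hj : 2 ≤ j)
    (hj2 : j + 3 ≤ s) : code G P s v (v j) = idx ((NS G P (v j)).erase (v (j - 1))) (v (j + 1)) := by
  have h : ∃ i, 2 ≤ i ∧ i + 3 ≤ s ∧ v i = v j := ⟨j, hj, hj2, rfl⟩
  have h1 : h.choose = j := by
    obtain ⟨h2, h3, h4⟩ := h.choose_spec
    exact hv _ (by omega) _ (by omega) h4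
  rw [code, dif_pos h, h1]

/-- the sum of the degrees -/
lemma sum_deg_le {n : ℕ} (G : SimpleGraph (Fin n)) (P : Finset (Fin n)) :
    ∑ w ∈ P, (NS G P w).card ≤ 2 * eIn G P := by
  set T : Finset (Σ _ : Fin n, Fin n) := P.sigma (fun w => NS G P w) with hT
  have hTc : T.card = ∑ w ∈ P, (NS G P w).card := Finset.card_sigma _ _
  rw [← hTc]
  set f : (Σ _ : Fin n, Fin n) → Sym2 (Fin n) := fun p => s(p.1, p.2) with hf
  have h1 : T.card ≤ 2 * (T.image f).card := by
    apply Finset.card_le_mul_card_image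
    intro e he
    obtain ⟨⟨a, b⟩, _, rfl⟩ := Finset.mem_image.mp he
    have : T.filter (fun p => f p = f ⟨a, b⟩) ⊆ {⟨a, b⟩, ⟨b, a⟩} := by
      rintro ⟨c, d⟩ hp
      have h2 : s(c, d) = s(a, b) := (Finset.mem_filter.mp hp).2
      rw [Sym2.eq_iff] at h2
      rw [Finset.mem_insert, Finset.mem_singleton]
      rcases h2 with ⟨rfl, rfl⟩ | ⟨rfl, rfl⟩
      · left; rfl
      · right; rfl
    exact (Finset.card_le_card this).trans Finset.card_le_two
  have h2 : (T.image f).card ≤ eIn G P := by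
    unfold eIn
    rw [← Finset.card_image_of_injective (univ.filter fun e : Edge n => e.1 ∈ G.edgeSet ∧
      ∀ v ∈ e.1, v ∈ P) Subtype.val_injective]
    apply Finset.card_le_card
    intro e he
    obtain ⟨⟨a, b⟩, hp, rfl⟩ := Finset.mem_image.mp he
    obtain ⟨ha, hb⟩ := Finset.mem_sigma.mp hp
    obtain ⟨hb1, hb2⟩ := mem_NS.mp hb
    simp only at ha hb1 hb2
    have hd : ¬ (s(a, b) : Sym2 (Fin n)).IsDiag := by
      rw [Sym2.mk_isDiag_iff]
      exact hb2.ne
    refine Finset.mem_image.mpr ⟨⟨s(a, b), hd⟩, ?_, rfl⟩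
    refine Finset.mem_filter.mpr ⟨Finset.mem_univ _, ?_, ?_⟩
    · exact hb2
    · intro v hv
      rw [Sym2.mem_iff] at hv
      rcases hv with rfl | rfl
      · exact ha
      · exact hb1
  omega

lemma max_le_two_pow (d : ℕ) : max 1 (d - 1) ≤ 2 ^ (d - 2) := by
  apply max_le Nat.one_le_two_pow
  rcases Nat.lt_or_ge d 2 with h | h
  · have : d - 1 = 0 := by omega
    rw [this]
    exact Nat.zero_le _
  · obtain ⟨e, rfl⟩ := Nat.exists_eq_add_of_le h
    have : e < 2 ^ e := Nat.lt_two_pow_self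
    have h1 : 2 + e - 1 = e + 1 := by omega
    have h2 : 2 + e - 2 = e := by omega
    rw [h1, h2]
    omega

/-- the number of codes -/
lemma prod_le {n s c : ℕ} (G : SimpleGraph (Fin n)) (u : Fin s → Fin n) (hu : IsPath G u)
    (hs : 1 ≤ s) (he : eIn G (univ.image u) ≤ (s - 1) + c) :
    ∏ w ∈ univ.image u, max 1 ((NS G (univ.image u) w).card - 1) ≤ 4 ^ c := by
  set P := univ.image u with hP
  obtain ⟨hinj, hadj⟩ := hu
  set d : Fin s → ℕ := fun j => (NS G P (u j)).card with hd
  have huP : ∀ j, u j ∈ P := fun j => Finset.mem_image_of_mem _ (Finset.mem_univ _)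
  have hsum : ∑ j, d j ≤ 2 * ((s - 1) + c) := by
    have h1 := sum_deg_le G P
    rw [hP, Finset.sum_image (fun a _ b _ h => hinj h)] at h1
    have h2 : ∑ j, d j ≤ 2 * eIn G P := h1
    omega
  have hkey : ∀ j : Fin s, (d j - 2) + 2 ≤ d j + (if (j : ℕ) = 0 then 1 else 0) +
      (if (j : ℕ) = s - 1 then 1 else 0) := by
    intro j
    have hL : (j : ℕ) ≠ 0 → ∃ y ∈ NS G P (u j), ∃ i : Fin s, (i : ℕ) + 1 = j ∧ y = u i := by
      intro hj
      have hi : (j : ℕ) - 1 < s := by omega
      refine ⟨u ⟨(j : ℕ) - 1, hi⟩, mem_NS.mpr ⟨huP _, ?_⟩, ⟨(j : ℕ) - 1, hi⟩, ?_, rfl⟩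
      · apply (hadj ⟨(j : ℕ) - 1, hi⟩ j ?_).symm
        show (j : ℕ) - 1 + 1 = j
        omega
      · show (j : ℕ) - 1 + 1 = j
        omega
    have hR : (j : ℕ) ≠ s - 1 → ∃ y ∈ NS G P (u j), ∃ i : Fin s, (i : ℕ) = (j : ℕ) + 1 ∧ y = u i := by
      intro hj
      have hi : (j : ℕ) + 1 < s := by
        have := j.2
        clear hL
        omega
      refine ⟨u ⟨(j : ℕ) + 1, hi⟩, mem_NS.mpr ⟨huP _, ?_⟩, ⟨(j : ℕ) + 1, hi⟩, rfl, rfl⟩
      exact hadj j ⟨(j : ℕ) + 1, hi⟩ rfl
    by_cases h0 : (j : ℕ) = 0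
    · by_cases h1 : (j : ℕ) = s - 1
      · rw [if_pos h0, if_pos h1]; clear hL hR; omega
      · rw [if_pos h0, if_neg h1]
        obtain ⟨y, hy, -⟩ := hR h1
        have : 1 ≤ d j := Finset.card_pos.mpr ⟨y, hy⟩
        clear hL hR
        omega
    · by_cases h1 : (j : ℕ) = s - 1
      · rw [if_neg h0, if_pos h1]
        obtain ⟨y, hy, -⟩ := hL h0
        have : 1 ≤ d j := Finset.card_pos.mpr ⟨y, hy⟩
        clear hL hR
        omega
      · rw [if_neg h0, if_neg h1]
        obtain ⟨y, hy, i, hi, hyi⟩ := hL h0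
        obtain ⟨z, hz, k, hk, hzk⟩ := hR h1
        have hne : y ≠ z := by
          intro hyz
          rw [hyi, hzk] at hyz
          have := hinj hyz
          rw [this] at hi
          clear hL hR
          omega
        have : 2 ≤ d j := by
          have h2 : ({y, z} : Finset (Fin n)) ⊆ NS G P (u j) := by
            intro t ht
            rw [Finset.mem_insert, Finset.mem_singleton] at ht
            rcases ht with rfl | rfl
            · exact hy
            · exact hz
          have h3 := Finset.card_le_card h2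
          rw [Finset.card_pair hne] at h3
          exact h3
        clear hL hR
        omega
  have hsum2 : ∑ j : Fin s, ((d j - 2) + 2) ≤ ∑ j : Fin s, (d j + (if (j : ℕ) = 0 then 1 else 0) +
      (if (j : ℕ) = s - 1 then 1 else 0)) := Finset.sum_le_sum (fun j _ => hkey j)
  have hi1 : ∑ j : Fin s, (if (j : ℕ) = 0 then 1 else 0) = 1 := by
    have : ∀ j : Fin s, (if (j : ℕ) = 0 then 1 else 0) = (if j = ⟨0, by omega⟩ then 1 else 0) := by
      intro j
      simp only [Fin.ext_iff]
    rw [Finset.sum_congr rfl (fun j _ => this j)]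
    simp
  have hi2 : ∑ j : Fin s, (if (j : ℕ) = s - 1 then 1 else 0) = 1 := by
    have : ∀ j : Fin s, (if (j : ℕ) = s - 1 then 1 else 0) =
        (if j = ⟨s - 1, by omega⟩ then 1 else 0) := by
      intro j
      simp only [Fin.ext_iff]
    rw [Finset.sum_congr rfl (fun j _ => this j)]
    simp
  rw [Finset.sum_add_distrib, Finset.sum_add_distrib, Finset.sum_add_distrib, hi1, hi2,
    Finset.sum_const, Finset.card_univ, Fintype.card_fin, smul_eq_mul] at hsum2
  have hsum3 : ∑ j : Fin s, (d j - 2) ≤ 2 * c := by omega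
  rw [hP, Finset.prod_image (fun a _ b _ h => hinj h)]
  calc ∏ j : Fin s, max 1 ((NS G (univ.image u) (u j)).card - 1)
      ≤ ∏ j : Fin s, 2 ^ (d j - 2) := by
        apply Finset.prod_le_prod'
        intro j _
        exact max_le_two_pow _
    _ = 2 ^ (∑ j : Fin s, (d j - 2)) := Finset.prod_pow_eq_pow_sum _ _ _
    _ ≤ 2 ^ (2 * c) := Nat.pow_le_pow_right (by norm_num) hsum3
    _ = 4 ^ c := by rw [pow_mul]; norm_num

/-- main counting -/
theorem stmtB4 (hF : StmtFibre) : StmtB4 := by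
  intro n s c G u I x hu hs hx1 hx2 hx3 hx4 he
  set P := univ.image u with hP
  obtain ⟨hinj, hadj⟩ := id hu
  have huP : ∀ j, u j ∈ P := fun j => Finset.mem_image_of_mem _ (Finset.mem_univ _)
  have hxP : ∀ i ∈ I, x i ∉ P := by
    intro i hi h
    obtain ⟨j, _, hj⟩ := Finset.mem_image.mp h
    exact hx2 i hi j hj.symm
  -- the vertex sets
  set SS : Finset (Fin s) → Finset (Fin n) := fun W => P ∪ W.image x with hSS
  have hPS : ∀ W, P ⊆ SS W := fun W => Finset.subset_union_left
  have hdet : ∀ W ⊆ I, ∀ i ∈ I, (i ∈ W ↔ (NS G P (u i)).card < (NS G (SS W) (u i)).card) := by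
    intro W hW i hi
    constructor
    · intro hiW
      apply Finset.card_lt_card
      refine ⟨Finset.filter_subset_filter _ (hPS W), fun h => ?_⟩
      have h1 : x i ∈ NS G (SS W) (u i) := mem_NS.mpr
        ⟨Finset.mem_union_right _ (Finset.mem_image_of_mem _ hiW), ((hx3 i hi i).mpr rfl).symm⟩
      exact hxP i hi (mem_NS.mp (h h1)).1
    · intro hlt
      by_contra hiW
      have : NS G (SS W) (u i) ⊆ NS G P (u i) := by
        intro y hy
        obtain ⟨hy1, hy2⟩ := mem_NS.mp hy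
        rcases Finset.mem_union.mp hy1 with h | h
        · exact mem_NS.mpr ⟨h, hy2⟩
        · obtain ⟨j, hj, rfl⟩ := Finset.mem_image.mp h
          have := (hx3 j (hW hj) i).mp hy2.symm
          rw [this] at hiW
          exact absurd hj hiW
      have := Finset.card_le_card this
      omega
  have hSSinj : ∀ W ⊆ I, ∀ W' ⊆ I, SS W = SS W' → W = W' := by
    intro W hW W' hW' h
    ext i
    constructor
    · intro hi
      have := (hdet W hW i (hW hi)).mp hi
      rw [h] at this
      exact (hdet W' hW' i (hW hi)).mpr this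
    · intro hi
      have := (hdet W' hW' i (hW' hi)).mp hi
      rw [← h] at this
      exact (hdet W hW i (hW' hi)).mpr this
  have hSScard : ∀ W, (SS W).card ≤ 2 * s := by
    intro W
    have h1 := Finset.card_union_le P (W.image x)
    have h2 : P.card ≤ s := by
      have := Finset.card_image_le (s := (univ : Finset (Fin s))) (f := u)
      rwa [Finset.card_univ, Fintype.card_fin] at this
    have h3 : (W.image x).card ≤ s := by
      have h4 := Finset.card_image_le (s := W) (f := x)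
      have h5 := Finset.card_le_univ W
      rw [Fintype.card_fin] at h5
      omega
    show (P ∪ W.image x).card ≤ 2 * s
    omega
  set F : Finset (Finset (Fin n)) := I.powerset.image SS with hFdef
  have hFcard : F.card = 2 ^ I.card := by
    rw [hFdef, Finset.card_image_of_injOn, Finset.card_powerset]
    intro W hW W' hW' h
    exact hSSinj W (Finset.mem_powerset.mp (Finset.mem_coe.mp hW)) W'
      (Finset.mem_powerset.mp (Finset.mem_coe.mp hW')) h
  rw [← hFcard]
  apply hF
  intro S hS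
  obtain ⟨W, hWI, rfl⟩ := Finset.mem_image.mp hS
  have hWI := Finset.mem_powerset.mp hWI
  -- reduce to the number of sets `W'`
  have hcard1 : (F.filter fun T => (isoSetoid G).r (SS W) T).card ≤
      (I.powerset.filter fun W' => (isoSetoid G).r (SS W) (SS W')).card := by
    have : (F.filter fun T => (isoSetoid G).r (SS W) T) ⊆
        (I.powerset.filter fun W' => (isoSetoid G).r (SS W) (SS W')).image SS := by
      intro T hT
      obtain ⟨hT1, hT2⟩ := Finset.mem_filter.mp hT
      obtain ⟨W', hW', rfl⟩ := Finset.mem_image.mp hT1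
      exact Finset.mem_image_of_mem _ (Finset.mem_filter.mpr ⟨hW', hT2⟩)
    exact (Finset.card_le_card this).trans Finset.card_image_le
  refine hcard1.trans ?_
  -- the maps
  have hex : ∀ W' : Finset (Fin s), ∃ f : Fin n → Fin n, (isoSetoid G).r (SS W) (SS W') →
      (∀ a ∈ SS W', f a ∈ SS W) ∧ (∀ a ∈ SS W', ∀ b ∈ SS W', f a = f b → a = b) ∧
      (∀ b ∈ SS W, ∃ a ∈ SS W', f a = b) ∧
      (∀ a ∈ SS W', ∀ b ∈ SS W', G.Adj (f a) (f b) ↔ G.Adj a b) := by
    intro W'
    by_cases h : (isoSetoid G).r (SS W) (SS W')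
    · obtain ⟨f, hf⟩ := iso_fun G (SS W') (SS W) ((isoSetoid G).iseqv.symm h)
      exact ⟨f, fun _ => hf⟩
    · exact ⟨id, fun h' => absurd h' h⟩
  choose f hf using hex
  set uu : ℕ → Fin n := fun j => u ⟨min j (s - 1), by omega⟩ with huu
  have huu1 : ∀ j (hj : j < s), uu j = u ⟨j, hj⟩ := by
    intro j hj
    have : min j (s - 1) = j := by omega
    simp only [huu, this]
  have huuP : ∀ j, uu j ∈ P := fun j => huP _
  set v : Finset (Fin s) → ℕ → Fin n := fun W' j => f W' (uu j) with hv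
  -- properties of the sequences
  have hvprop : ∀ W' ∈ I.powerset.filter (fun W' => (isoSetoid G).r (SS W) (SS W')),
      (∀ j, v W' j ∈ SS W) ∧ (∀ i < s, ∀ j < s, v W' i = v W' j → i = j) ∧
      (∀ j, j + 1 < s → G.Adj (v W' j) (v W' (j + 1))) := by
    intro W' hW'
    obtain ⟨g1, g2, g3, g4⟩ := hf W' (Finset.mem_filter.mp hW').2
    refine ⟨fun j => g1 _ (hPS W' (huuP j)), ?_, ?_⟩
    · intro i hi j hj hij
      have h1 := g2 _ (hPS W' (huuP i)) _ (hPS W' (huuP j)) hij
      rw [huu1 i hi, huu1 j hj] at h1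
      exact congrArg Fin.val (hinj h1)
    · intro j hj
      refine (g4 _ (hPS W' (huuP j)) _ (hPS W' (huuP (j + 1)))).mpr ?_
      rw [huu1 j (by omega), huu1 (j + 1) hj]
      exact hadj _ _ rfl
  -- interior vertices are on the path
  have hint : ∀ W' ∈ I.powerset.filter (fun W' => (isoSetoid G).r (SS W) (SS W')),
      ∀ j, 1 ≤ j → j + 1 < s → v W' j ∈ P := by
    intro W' hW' j hj hj2
    obtain ⟨g1, g2, g3⟩ := hvprop W' hW'
    rcases Finset.mem_union.mp (g1 j) with h | h
    · exact h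
    · exfalso
      obtain ⟨i, hi, hxi⟩ := Finset.mem_image.mp h
      have hiI := hWI hi
      have hnb : ∀ y ∈ SS W, G.Adj (x i) y → y = u i := by
        intro y hy hxy
        rcases Finset.mem_union.mp hy with h' | h'
        · obtain ⟨k, _, rfl⟩ := Finset.mem_image.mp h'
          rw [(hx3 i hiI k).mp hxy]
        · obtain ⟨k, hk, rfl⟩ := Finset.mem_image.mp h'
          exact absurd hxy (hx4 i hiI k (hWI hk))
      have a1 : v W' (j - 1) = u i := by
        apply hnb _ (g1 _)
        rw [hxi]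
        have := g3 (j - 1) (by omega)
        have e : j - 1 + 1 = j := by omega
        rw [e] at this
        exact this.symm
      have a2 : v W' (j + 1) = u i := by
        apply hnb _ (g1 _)
        rw [hxi]
        exact g3 j hj2
      have := g2 (j - 1) (by omega) (j + 1) hj2 (a1.trans a2.symm)
      omega
  -- the encoding
  set b : Fin n → ℕ := fun w => if w ∈ P then max 1 ((NS G P w).card - 1) else 1 with hb
  set Tgt := (SS W) ×ˢ (SS W) ×ˢ (SS W) ×ˢ (SS W) ×ˢ Fintype.piFinset (fun w => range (b w)) with hTgt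
  have hcard2 : Tgt.card ≤ (2 * s) ^ 4 * 4 ^ c := by
    rw [hTgt, Finset.card_product, Finset.card_product, Finset.card_product, Finset.card_product,
      Fintype.card_piFinset]
    have h1 : ∏ w, (range (b w)).card ≤ 4 ^ c := by
      have h2 : ∏ w, (range (b w)).card = ∏ w ∈ P, max 1 ((NS G P w).card - 1) := by
        simp only [Finset.card_range, hb]
        rw [Finset.prod_ite, Finset.prod_const_one, mul_one]
        congr 1
        ext w
        simp
      rw [h2]
      exact prod_le G u hu hs he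
    have h3 := hSScard W
    calc (SS W).card * ((SS W).card * ((SS W).card * ((SS W).card * ∏ w, (range (b w)).card)))
        ≤ (2 * s) * ((2 * s) * ((2 * s) * ((2 * s) * 4 ^ c))) := by gcongr
      _ = (2 * s) ^ 4 * 4 ^ c := by ring
  refine le_trans ?_ hcard2
  apply Finset.card_le_card_of_injOn
    (fun W' => (v W' 0, v W' 1, v W' 2, v W' (s - 1), code G P s (v W')))
  · intro W' hW'
    have hW' := Finset.mem_coe.mp hW'
    obtain ⟨g1, g2, g3⟩ := hvprop W' hW'
    apply Finset.mem_coe.mpr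
    rw [hTgt]
    refine Finset.mem_product.mpr ⟨g1 0, Finset.mem_product.mpr ⟨g1 1, Finset.mem_product.mpr
      ⟨g1 2, Finset.mem_product.mpr ⟨g1 (s - 1), ?_⟩⟩⟩⟩
    rw [Fintype.mem_piFinset]
    intro w
    rw [Finset.mem_range]
    by_cases hw : ∃ j, 2 ≤ j ∧ j + 3 ≤ s ∧ v W' j = w
    · obtain ⟨j, hj, hj2, rfl⟩ := hw
      show code G P s (v W') (v W' j) < b (v W' j)
      rw [code_eq g2 hj hj2]
      have hjP := hint W' hW' j (by omega) (by omega)
      have hj1P := hint W' hW' (j - 1) (by omega) (by omega)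
      have hj3P := hint W' hW' (j + 1) (by omega) (by omega)
      have hadj1 : G.Adj (v W' j) (v W' (j - 1)) := by
        have := g3 (j - 1) (by omega)
        have e : j - 1 + 1 = j := by omega
        rw [e] at this
        exact this.symm
      have hadj2 : G.Adj (v W' j) (v W' (j + 1)) := g3 j (by omega)
      have hne : v W' (j + 1) ≠ v W' (j - 1) := by
        intro h
        have := g2 (j + 1) (by omega) (j - 1) (by omega) h
        omega
      have h1 : v W' (j + 1) ∈ (NS G P (v W' j)).erase (v W' (j - 1)) :=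
        Finset.mem_erase.mpr ⟨hne, mem_NS.mpr ⟨hj3P, hadj2⟩⟩
      have h2 := idx_lt h1
      rw [Finset.card_erase_of_mem (mem_NS.mpr ⟨hj1P, hadj1⟩)] at h2
      simp only [hb]
      rw [if_pos hjP]
      exact lt_of_lt_of_le h2 (le_max_right _ _)
    · show code G P s (v W') w < b w
      rw [code, dif_neg hw]
      simp only [hb]
      split_ifs
      · exact lt_of_lt_of_le one_pos (le_max_left _ _)
      · exact one_pos
  · intro W₁ hW₁ W₂ hW₂ h
    have hW₁ := Finset.mem_coe.mp hW₁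
    have hW₂ := Finset.mem_coe.mp hW₂
    simp only [Prod.mk.injEq] at h
    obtain ⟨e0, e1, e2, e3, e4⟩ := h
    obtain ⟨g1, g2, g3⟩ := hvprop W₁ hW₁
    obtain ⟨k1, k2, k3⟩ := hvprop W₂ hW₂
    -- the sequences agree
    have hstep : ∀ j, 2 ≤ j → j + 3 ≤ s → v W₁ (j - 1) = v W₂ (j - 1) → v W₁ j = v W₂ j →
        v W₁ (j + 1) = v W₂ (j + 1) := by
      intro j hj hj2 h1 h2
      have h3 := congrFun e4 (v W₁ j)
      rw [code_eq g2 hj hj2] at h3
      rw [h2, code_eq k2 hj hj2, h1] at h3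
      have a1 : v W₁ (j + 1) ∈ (NS G P (v W₂ j)).erase (v W₂ (j - 1)) := by
        refine Finset.mem_erase.mpr ⟨?_, mem_NS.mpr ⟨hint W₁ hW₁ (j + 1) (by omega) (by omega), ?_⟩⟩
        · rw [← h1]
          intro h
          have := g2 (j + 1) (by omega) (j - 1) (by omega) h
          omega
        · rw [← h2]
          exact g3 j (by omega)
      have a2 : v W₂ (j + 1) ∈ (NS G P (v W₂ j)).erase (v W₂ (j - 1)) := by
        refine Finset.mem_erase.mpr ⟨?_, mem_NS.mpr ⟨hint W₂ hW₂ (j + 1) (by omega) (by omega), ?_⟩⟩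
        · intro h
          have := k2 (j + 1) (by omega) (j - 1) (by omega) h
          omega
        · exact k3 j (by omega)
      exact idx_inj a1 a2 h3
    have hall : ∀ j, j + 2 ≤ s → (v W₁ j = v W₂ j ∧ (j + 3 ≤ s → v W₁ (j + 1) = v W₂ (j + 1))) := by
      intro j
      induction j with
      | zero => intro _; exact ⟨e0, fun _ => e1⟩
      | succ j ih =>
        intro hj
        obtain ⟨h1, h2⟩ := ih (by omega)
        refine ⟨h2 (by omega), ?_⟩
        intro hj2
        rcases Nat.eq_zero_or_pos j with rfl | hjp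
        · exact e2
        · have := hstep (j + 1) (by omega) (by omega) (by simpa using h1) (h2 (by omega))
          exact this
    have hv12 : ∀ j < s, v W₁ j = v W₂ j := by
      intro j hj
      by_cases h : j = s - 1
      · rw [h]; exact e3
      · exact (hall j (by omega)).1
    -- the sets agree
    obtain ⟨f1, f2, f3, f4⟩ := hf W₁ (Finset.mem_filter.mp hW₁).2
    obtain ⟨l1, l2, l3, l4⟩ := hf W₂ (Finset.mem_filter.mp hW₂).2
    have hW1I := Finset.mem_powerset.mp (Finset.mem_filter.mp hW₁).1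
    have hW2I := Finset.mem_powerset.mp (Finset.mem_filter.mp hW₂).1
    have hdd : ∀ i : Fin s, (NS G (SS W₁) (u i)).card = (NS G (SS W₂) (u i)).card := by
      intro i
      have d1 := deg_eq f1 f2 f3 f4 (hPS W₁ (huP i))
      have d2 := deg_eq l1 l2 l3 l4 (hPS W₂ (huP i))
      have d3 : f W₁ (u i) = f W₂ (u i) := by
        have := hv12 i i.2
        simp only [hv] at this
        rw [huu1 i i.2] at this
        exact this
      rw [← d1, ← d2, d3]
    ext i
    constructor
    · intro hi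
      have := (hdet W₁ hW1I i (hW1I hi)).mp hi
      rw [hdd i] at this
      exact (hdet W₂ hW2I i (hW1I hi)).mpr this
    · intro hi
      have := (hdet W₂ hW2I i (hW2I hi)).mp hi
      rw [← hdd i] at this
      exact (hdet W₁ hW1I i (hW2I hi)).mpr this

end Pool.Agent.R793.UIB4
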